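import Mathlib

/-! Integer vectors that are linearly independent modulo `q` are linearly independent. -/

set_option autoImplicit false

open Finset

namespace Pool.Agent.TH999.IHLin

theorem dvd_pow_of_rel {ι n : Type*} [Fintype ι] (q : ℕ) (hq : 2 ≤ q) (v : ι → n → ℤ)
    (h : LinearIndependent (ZMod q) (fun i j => ((v i j : ℤ) : ZMod q))) (k : ℕ) :
    ∀ c : ι → ℤ, (∀ j, ∑ i, c i * v i j = 0) → ∀ i, (q : ℤ) ^ k ∣ c i := by
  induction k with
  | zero => intro c _ i; simp
  | succ k ih =>
    intro c hc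
    have h1 : ∀ i, (q : ℤ) ∣ c i := by
      have h2 : ∑ i, ((c i : ℤ) : ZMod q) • (fun j => ((v i j : ℤ) : ZMod q)) = 0 := by
        funext j
        have := congrArg (Int.cast : ℤ → ZMod q) (hc j)
        simpa using this
      intro i
      have := Fintype.linearIndependent_iff.1 h _ h2 i
      exact (ZMod.intCast_zmod_eq_zero_iff_dvd _ _).1 this
    choose c' hc' using h1
    have hq0 : (q : ℤ) ≠ 0 := by
      have : (q : ℤ) ≥ 2 := by exact_mod_cast hq
      omega
    have h3 : ∀ j, ∑ i, c' i * v i j = 0 := by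
      intro j
      have h4 := hc j
      have h5 : ∑ i, c i * v i j = (q : ℤ) * ∑ i, c' i * v i j := by
        rw [Finset.mul_sum]
        refine Finset.sum_congr rfl fun i _ => ?_
        rw [hc' i]
        ring
      rw [h5] at h4
      exact (mul_eq_zero.1 h4).resolve_left hq0
    intro i
    rw [hc' i, pow_succ, mul_comm _ (q : ℤ)]
    exact mul_dvd_mul_left _ (ih c' h3 i)

theorem li_rat {ι n : Type*} [Fintype ι] (q : ℕ) (hq : 2 ≤ q) (v : ι → n → ℤ)
    (h : LinearIndependent (ZMod q) (fun i j => ((v i j : ℤ) : ZMod q))) :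
    LinearIndependent ℚ (fun i j => ((v i j : ℤ) : ℚ)) := by
  rw [← LinearIndependent.iff_fractionRing (R := ℤ) (K := ℚ), Fintype.linearIndependent_iff]
  intro c hc i
  have h1 : ∀ j, ∑ i, c i * v i j = 0 := by
    intro j
    have h2 := congrFun hc j
    simp only [Finset.sum_apply, Pi.smul_apply, Pi.zero_apply] at h2
    simp only [zsmul_eq_mul] at h2
    exact_mod_cast h2
  have h3 := fun k => dvd_pow_of_rel q hq v h k c h1 i
  by_contra hne
  have h4 := Int.le_of_dvd (abs_pos.2 hne) ((dvd_abs _ _).2 (h3 (c i).natAbs))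
  have h5 : (c i).natAbs < q ^ (c i).natAbs := Nat.lt_pow_self (by omega)
  have h6 : ((q ^ (c i).natAbs : ℕ) : ℤ) ≤ |c i| := by exact_mod_cast h4
  have h7 : |c i| = ((c i).natAbs : ℤ) := Int.abs_eq_natAbs _
  omega

theorem rank_mod_le {m n : Type*} [Fintype m] [Fintype n] (A : Matrix m n ℤ) (q : ℕ)
    (hq : q.Prime) :
    (A.map (Int.cast : ℤ → ZMod q)).rank ≤ (A.map (Int.cast : ℤ → ℚ)).rank := by
  have : Fact q.Prime := ⟨hq⟩
  rw [Matrix.rank_eq_finrank_span_row, Matrix.rank_eq_finrank_span_row]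
  obtain ⟨f, hf, -, hli⟩ := Submodule.exists_fun_fin_finrank_span_eq (ZMod q)
    (Set.range (A.map (Int.cast : ℤ → ZMod q)).row)
  choose j hj using hf
  have h1 : LinearIndependent (ZMod q) (fun i l => ((A (j i) l : ℤ) : ZMod q)) := by
    have e : f = (fun i l => ((A (j i) l : ℤ) : ZMod q)) := by
      funext i
      rw [← hj i]
      rfl
    rw [e] at hli
    exact hli
  have h2 := li_rat q hq.two_le (fun i l => A (j i) l) h1
  have h3 : LinearIndependent ℚ (fun i => (⟨fun l => ((A (j i) l : ℤ) : ℚ),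
      Submodule.subset_span ⟨j i, rfl⟩⟩ :
      Submodule.span ℚ (Set.range (A.map (Int.cast : ℤ → ℚ)).row))) := by
    refine LinearIndependent.of_comp (Submodule.subtype _) ?_
    exact h2
  simpa using h3.fintype_card_le_finrank

end Pool.Agent.TH999.IHLin
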