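import Mathlib
import Pool.Agent.TH974.IH.Box
import Pool.Agent.TH999.IHLin

/-! Job 2180 (IH-A2): ranks modulo `q` and locally constant functions. -/

set_option autoImplicit false

open Finset MeasureTheory ProbabilityTheory Filter Topology
open scoped ENNReal NNReal

namespace Pool.Agent.TH999.J2180

open Pool.Agent.TH974.IH

theorem rank_mod_le {m n : Type*} [Fintype m] [Fintype n] (A : Matrix m n ℤ) (q : ℕ)
    (hq : q.Prime) :
    (A.map (Int.cast : ℤ → ZMod q)).rank ≤ (A.map (Int.cast : ℤ → ℚ)).rank :=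
  Pool.Agent.TH999.IHLin.rank_mod_le A q hq

open Classical in
/-- the incidence matrix -/
noncomputable def Inc {d : ℕ} (D : Finset (Zd d)) (ω : Env d) : Matrix (D × D) D ℤ :=
  fun p z => if ∃ e : Ed d, ω e = true ∧ e.1 = p.1 ∧ hd e = p.2 then
    (if z = p.1 then 1 else 0) - (if z = p.2 then 1 else 0) else 0

theorem mem_CC_iff {d : ℕ} {R : Type*} [CommRing R] (D : Finset (Zd d)) (ω : Env d) (w : D → R) :
    w ∈ CC R D ω ↔ w ∈ LinearMap.ker (((Inc D ω).map (Int.cast : ℤ → R)).mulVecLin) := by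
  classical
  rw [LinearMap.mem_ker, Matrix.mulVecLin_apply]
  have key : ∀ p : D × D, ((Inc D ω).map (Int.cast : ℤ → R)).mulVec w p =
      if ∃ e : Ed d, ω e = true ∧ e.1 = p.1 ∧ hd e = p.2 then w p.1 - w p.2 else 0 := by
    intro p
    simp only [Matrix.mulVec, dotProduct, Matrix.map_apply, Inc]
    split_ifs with h
    · simp [sub_mul, Finset.sum_sub_distrib]
    · simp
  constructor
  · intro h
    funext p
    rw [key p]
    split_ifs with he
    · obtain ⟨e, h1, h2, h3⟩ := he
      rw [h p.1 p.2 e h1 h2 h3, sub_self]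
      rfl
    · rfl
  · intro h x y e h1 h2 h3
    have := congrFun h (x, y)
    rw [key (x, y), if_pos ⟨e, h1, h2, h3⟩] at this
    exact sub_eq_zero.1 this

theorem finrank_CC {d : ℕ} (R : Type*) [Field R] (D : Finset (Zd d)) (ω : Env d) :
    ((Inc D ω).map (Int.cast : ℤ → R)).rank + Module.finrank R (CC R D ω) = D.card := by
  have h1 : CC R D ω = LinearMap.ker (((Inc D ω).map (Int.cast : ℤ → R)).mulVecLin) := by
    ext w
    exact mem_CC_iff D ω w
  rw [h1, Matrix.rank, LinearMap.finrank_range_add_finrank_ker]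
  simp

theorem CC_rank {d : ℕ} (D : Finset (Zd d)) (ω : Env d) (q : ℕ) [Fact q.Prime] :
    Module.finrank ℚ (CC ℚ D ω) ≤ Module.finrank (ZMod q) (CC (ZMod q) D ω) := by
  have h1 := finrank_CC ℚ D ω
  have h2 := finrank_CC (ZMod q) D ω
  have h3 := rank_mod_le (Inc D ω) q Fact.out
  omega

end Pool.Agent.TH999.J2180
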