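import Mathlib
import Pool.Agent.TH974.IH.Box

/-! Job 2181 (IH-A3): the matrix of the Laplacian. -/

set_option autoImplicit false

open Finset MeasureTheory ProbabilityTheory Filter Topology
open scoped ENNReal NNReal

namespace Pool.Agent.TH999.J2181

open Pool.Agent.TH974.IH

theorem MM_row {d : ℕ} (D B : Finset (Zd d)) (ω : Env d) (x : B) :
    ∑ y : D, |MM D B ω x y| ≤ ((4 * d : ℕ) : ℤ) := by
  classical
  have h1 : ∀ z : Zd d, ∑ y : D, (if z = (y : Zd d) then (1 : ℤ) else 0) ≤ 1 := by
    intro z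
    by_cases hz : z ∈ D
    · rw [Finset.sum_eq_single (⟨z, hz⟩ : D)]
      · simp
      · intro b _ hb
        rw [if_neg]
        intro h
        apply hb
        exact Subtype.ext h.symm
      · intro h
        exact absurd (mem_univ _) h
    · rw [Finset.sum_eq_zero]
      · norm_num
      · intro y _
        rw [if_neg]
        intro h
        exact hz (h ▸ y.2)
  have h0 : ∀ z (y : D), 0 ≤ (if z = (y : Zd d) then (1 : ℤ) else 0) := by
    intro z y
    split_ifs <;> norm_num
  have h2 : ∀ (b : Bool) (z z' : Zd d) (y : D), |(if b = true then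
      (if z = (y : Zd d) then (1 : ℤ) else 0) - (if z' = (y : Zd d) then (1 : ℤ) else 0) else 0)| ≤
      (if z = (y : Zd d) then (1 : ℤ) else 0) + (if z' = (y : Zd d) then (1 : ℤ) else 0) := by
    intro b z z' y
    split_ifs <;> norm_num
  calc ∑ y : D, |MM D B ω x y|
      ≤ ∑ y : D, ∑ i : Fin d, (((if (x : Zd d) + Pi.single i 1 = (y : Zd d) then (1 : ℤ) else 0) +
          (if (x : Zd d) = (y : Zd d) then (1 : ℤ) else 0)) +
          ((if (x : Zd d) - Pi.single i 1 = (y : Zd d) then (1 : ℤ) else 0) +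
          (if (x : Zd d) = (y : Zd d) then (1 : ℤ) else 0))) := by
        refine Finset.sum_le_sum fun y _ => ?_
        unfold MM Lap
        refine (Finset.abs_sum_le_sum_abs _ _).trans (Finset.sum_le_sum fun i _ => ?_)
        refine (abs_add_le _ _).trans (add_le_add ?_ ?_)
        · convert h2 (ω (x, i)) _ _ y using 2
        · convert h2 (ω ((x : Zd d) - Pi.single i 1, i)) _ _ y using 2
    _ = ∑ i : Fin d, ((∑ y : D, (if (x : Zd d) + Pi.single i 1 = (y : Zd d) then (1 : ℤ) else 0) +
          ∑ y : D, (if (x : Zd d) = (y : Zd d) then (1 : ℤ) else 0)) +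
          (∑ y : D, (if (x : Zd d) - Pi.single i 1 = (y : Zd d) then (1 : ℤ) else 0) +
          ∑ y : D, (if (x : Zd d) = (y : Zd d) then (1 : ℤ) else 0))) := by
        rw [Finset.sum_comm]
        simp only [Finset.sum_add_distrib]
    _ ≤ ∑ i : Fin d, ((1 + 1) + (1 + 1) : ℤ) := by
        refine Finset.sum_le_sum fun i _ => ?_
        have a1 := h1 ((x : Zd d) + Pi.single i 1)
        have a2 := h1 (x : Zd d)
        have a3 := h1 ((x : Zd d) - Pi.single i 1)
        linarith
    _ = ((4 * d : ℕ) : ℤ) := by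
        simp
        ring

theorem lap_sum {d : ℕ} {R : Type*} [CommRing R] {ι : Type*} (s : Finset ι) (ω : Env d)
    (f : ι → Zd d → R) (c : ι → R) (x : Zd d) :
    Lap ω (fun v => ∑ i ∈ s, c i * f i v) x = ∑ i ∈ s, c i * Lap ω (f i) x := by
  simp only [Lap, Finset.mul_sum]
  rw [Finset.sum_comm]
  refine Finset.sum_congr rfl fun j _ => ?_
  split_ifs <;> simp [mul_add, mul_sub, Finset.sum_add_distrib, Finset.sum_sub_distrib]

theorem lap_cast {d : ℕ} {R : Type*} [CommRing R] (ω : Env d) (u : Zd d → ℤ) (x : Zd d) :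
    Lap ω (fun v => ((u v : ℤ) : R)) x = ((Lap ω u x : ℤ) : R) := by
  unfold Lap
  push_cast
  rfl

theorem lap_ext_eq {d : ℕ} {R : Type*} [CommRing R] (D B : Finset (Zd d)) (ω : Env d) (w : D → R)
    (x : B) : Lap ω (ext D w) x = ((MM D B ω).map (Int.cast : ℤ → R)).mulVec w x := by
  classical
  have h1 : ext D w = fun v => ∑ y : D, w y *
      (((if v = (y : Zd d) then (1 : ℤ) else 0 : ℤ)) : R) := by
    funext v
    unfold Pool.Agent.TH974.IH.ext
    by_cases hv : v ∈ D
    · rw [dif_pos hv, Finset.sum_eq_single (⟨v, hv⟩ : D)]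
      · simp
      · intro b _ hb
        rw [if_neg]
        · simp
        · intro h
          apply hb
          exact Subtype.ext h.symm
      · intro h
        exact absurd (mem_univ _) h
    · rw [dif_neg hv]
      symm
      apply Finset.sum_eq_zero
      intro y _
      rw [if_neg]
      · simp
      · intro h
        exact hv (h ▸ y.2)
  rw [h1, lap_sum]
  simp only [Matrix.mulVec, dotProduct, Matrix.map_apply, MM]
  refine Finset.sum_congr rfl fun y _ => ?_
  rw [lap_cast, mul_comm]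

theorem WW_ker {d : ℕ} {R : Type*} [CommRing R] (D B : Finset (Zd d)) (hBD : B ⊆ D)
    (hn : ∀ x ∈ B, ∀ i, x + Pi.single i 1 ∈ D ∧ x - Pi.single i 1 ∈ D) (ω : Env d) (w : D → R) :
    w ∈ WW R D B ω ↔ ((MM D B ω).map (Int.cast : ℤ → R)).mulVec w = 0 := by
  constructor
  · intro h
    funext x
    rw [← lap_ext_eq]
    exact h x x.2
  · intro h x hx
    have := lap_ext_eq D B ω w ⟨x, hx⟩
    rw [h] at this
    exact this

theorem CC_le_HH {d : ℕ} (D B : Finset (Zd d)) (hBD : B ⊆ D)
    (hn : ∀ x ∈ B, ∀ i, x + Pi.single i 1 ∈ D ∧ x - Pi.single i 1 ∈ D) (ω : Env d) (q : ℕ)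
    [Fact q.Prime] : CC (ZMod q) D ω ≤ HH q D B ω := by
  classical
  intro w hw
  apply Submodule.subset_span
  have hq : q ≠ 0 := (Fact.out : q.Prime).ne_zero
  have : NeZero q := ⟨hq⟩
  refine ⟨fun v => if h : v ∈ D then ((w ⟨v, h⟩).val : ℤ) else 0, ?_, ?_⟩
  · intro x hx
    have hxD := hBD hx
    unfold Lap
    apply Finset.sum_eq_zero
    intro i _
    have h1 : (if ω (x, i) = true then (if h : x + Pi.single i 1 ∈ D then
        ((w ⟨x + Pi.single i 1, h⟩).val : ℤ) else 0) -
        (if h : x ∈ D then ((w ⟨x, h⟩).val : ℤ) else 0) else 0) = 0 := by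
      split_ifs with h2 h3
      · rw [hw ⟨x, hxD⟩ ⟨x + Pi.single i 1, h3⟩ (x, i) h2 rfl rfl, sub_self]
      · exact absurd (hn x hx i).1 h3
      · rfl
    have h1' : (if ω (x - Pi.single i 1, i) = true then (if h : x - Pi.single i 1 ∈ D then
        ((w ⟨x - Pi.single i 1, h⟩).val : ℤ) else 0) -
        (if h : x ∈ D then ((w ⟨x, h⟩).val : ℤ) else 0) else 0) = 0 := by
      split_ifs with h2 h3
      · rw [hw ⟨x - Pi.single i 1, h3⟩ ⟨x, hxD⟩ (x - Pi.single i 1, i) h2 rfl
          (by simp [hd]), sub_self]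
      · exact absurd (hn x hx i).2 h3
      · rfl
    rw [h1, h1', add_zero]
  · intro y
    simp

end Pool.Agent.TH999.J2181
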