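import Mathlib
import Pool.Agent.TH974.IH.Box

/-! Job 2182 (IH-A4): the energy argument. -/

set_option autoImplicit false

open Finset MeasureTheory ProbabilityTheory Filter Topology
open scoped ENNReal NNReal

namespace Pool.Agent.TH999.J2182

open Pool.Agent.TH974.IH

theorem energy_zero {d : ℕ} (B : Finset (Zd d)) (ω : Env d) (f : Zd d → ℚ)
    (hf : ∀ x, x ∉ B → f x = 0) (hL : ∀ x ∈ B, Lap ω f x = 0) (x : Zd d) (i : Fin d)
    (hx : ω (x, i) = true) : f (x + Pi.single i 1) = f x := by
  classical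
  let g : Fin d → Zd d → ℚ := fun i x => if ω (x, i) = true then f (x + Pi.single i 1) - f x else 0
  let S : Fin d → Finset (Zd d) := fun i => B ∪ B.image (fun x => x - Pi.single i 1)
  have hLg : ∀ x, Lap ω f x = ∑ i, (g i x - g i (x - Pi.single i 1)) := by
    intro x
    unfold Lap
    refine Finset.sum_congr rfl fun i _ => ?_
    simp only [g, sub_add_cancel]
    split_ifs <;> ring
  have h1 : ∑ x ∈ B, f x * Lap ω f x = 0 :=
    Finset.sum_eq_zero fun x hx => by rw [hL x hx, mul_zero]
  have h2 : ∀ i, ∑ x ∈ B, f x * (g i x - g i (x - Pi.single i 1)) =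
      - ∑ y ∈ S i, (if ω (y, i) = true then (f (y + Pi.single i 1) - f y) ^ 2 else 0) := by
    intro i
    have a1 : ∑ x ∈ B, f x * g i x = ∑ x ∈ S i, f x * g i x := by
      apply Finset.sum_subset subset_union_left
      intro x _ hx
      rw [hf x hx, zero_mul]
    have a2 : ∑ x ∈ B, f x * g i (x - Pi.single i 1) =
        ∑ y ∈ S i, f (y + Pi.single i 1) * g i y := by
      have a3 : ∑ x ∈ B, f x * g i (x - Pi.single i 1) =
          ∑ y ∈ B.image (fun x => x - Pi.single i 1), f (y + Pi.single i 1) * g i y := by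
        rw [Finset.sum_image]
        · refine Finset.sum_congr rfl fun x _ => ?_
          rw [sub_add_cancel]
        · intro a _ b _ h
          exact sub_left_injective h
      rw [a3]
      apply Finset.sum_subset subset_union_right
      intro y _ hy
      rw [hf (y + Pi.single i 1), zero_mul]
      intro h
      apply hy
      rw [mem_image]
      exact ⟨_, h, by rw [add_sub_cancel_right]⟩
    simp only [mul_sub, Finset.sum_sub_distrib]
    rw [a1, a2, ← Finset.sum_sub_distrib, ← Finset.sum_neg_distrib]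
    refine Finset.sum_congr rfl fun y _ => ?_
    simp only [g]
    split_ifs <;> ring
  have h3 : ∑ i, ∑ y ∈ S i, (if ω (y, i) = true then (f (y + Pi.single i 1) - f y) ^ 2 else 0)
      = 0 := by
    have h4 : ∑ x ∈ B, f x * Lap ω f x = ∑ i, ∑ x ∈ B, f x * (g i x - g i (x - Pi.single i 1)) := by
      rw [Finset.sum_comm]
      refine Finset.sum_congr rfl fun x _ => ?_
      rw [hLg, Finset.mul_sum]
    rw [h1] at h4
    rw [Finset.sum_congr rfl (fun i _ => h2 i), Finset.sum_neg_distrib] at h4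
    linarith
  have hnn : ∀ i, ∀ y : Zd d,
      0 ≤ (if ω (y, i) = true then (f (y + Pi.single i 1) - f y) ^ 2 else (0 : ℚ)) := by
    intro i y
    split_ifs
    · exact sq_nonneg _
    · exact le_rfl
  by_cases hxS : x ∈ S i
  · have h5 := (Finset.sum_eq_zero_iff_of_nonneg
      (fun i _ => Finset.sum_nonneg fun y _ => hnn i y)).1 h3 i (mem_univ _)
    have h6 := (Finset.sum_eq_zero_iff_of_nonneg (fun y _ => hnn i y)).1 h5 x hxS
    rw [if_pos hx] at h6
    have h7 := pow_eq_zero_iff (two_ne_zero) |>.1 h6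
    linarith
  · have h8 : x ∉ B := fun h => hxS (mem_union_left _ h)
    have h9 : x + Pi.single i 1 ∉ B := fun h => hxS (mem_union_right _ (mem_image.2
      ⟨_, h, by rw [add_sub_cancel_right]⟩))
    rw [hf _ h8, hf _ h9]

theorem energy {d : ℕ} (D B : Finset (Zd d)) (hBD : B ⊆ D)
    (hn : ∀ x ∈ B, ∀ i, x + Pi.single i 1 ∈ D ∧ x - Pi.single i 1 ∈ D) (ω : Env d) :
    Module.finrank ℚ (WW ℚ D B ω) ≤ Module.finrank ℚ (CC ℚ D ω) + (D \ B).card := by
  classical
  let ρ : WW ℚ D B ω →ₗ[ℚ] (↥(D \ B) → ℚ) :=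
    { toFun := fun w x => (w : D → ℚ) ⟨x, (mem_sdiff.1 x.2).1⟩
      map_add' := fun a b => rfl
      map_smul' := fun c a => rfl }
  have hker : ∀ w ∈ LinearMap.ker ρ, (w : D → ℚ) ∈ CC ℚ D ω := by
    intro w hw x y e h1 h2 h3
    have hf : ∀ z, z ∉ B → Pool.Agent.TH974.IH.ext D (w : D → ℚ) z = 0 := by
      intro z hz
      unfold Pool.Agent.TH974.IH.ext
      split_ifs with hzD
      · exact congrFun (LinearMap.mem_ker.1 hw) ⟨z, mem_sdiff.2 ⟨hzD, hz⟩⟩
      · rfl
    have h4 := energy_zero B ω (Pool.Agent.TH974.IH.ext D (w : D → ℚ)) hf w.2 e.1 e.2 h1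
    have h5 : e.1 + Pi.single e.2 1 = (y : Zd d) := h3
    rw [h5, h2] at h4
    unfold Pool.Agent.TH974.IH.ext at h4
    rw [dif_pos x.2, dif_pos y.2] at h4
    exact h4.symm
  have h1 := LinearMap.finrank_range_add_finrank_ker ρ
  have h2 : Module.finrank ℚ (LinearMap.range ρ) ≤ (D \ B).card := by
    refine (Submodule.finrank_le _).trans ?_
    simp
  have h3 : Module.finrank ℚ (LinearMap.ker ρ) ≤ Module.finrank ℚ (CC ℚ D ω) := by
    let κ : LinearMap.ker ρ →ₗ[ℚ] CC ℚ D ω :=
      { toFun := fun w => ⟨(w : WW ℚ D B ω), hker w w.2⟩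
        map_add' := fun a b => rfl
        map_smul' := fun c a => rfl }
    refine LinearMap.finrank_le_finrank_of_injective (f := κ) ?_
    intro a b hab
    apply Subtype.ext
    apply Subtype.ext
    exact congrArg (fun z : CC ℚ D ω => (z : D → ℚ)) hab
  omega

end Pool.Agent.TH999.J2182
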