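import Mathlib
import Pool.Agent.TH974.IH.Box
import Pool.Agent.TH999.IHLin

/-! Job 2183 (IH-A5): reductions of integer harmonic functions. -/

set_option autoImplicit false

open Finset MeasureTheory ProbabilityTheory Filter Topology
open scoped ENNReal NNReal

namespace Pool.Agent.TH999.J2183

open Pool.Agent.TH974.IH

theorem lap_ext {d : ℕ} {R : Type*} [CommRing R] (D B : Finset (Zd d)) (hBD : B ⊆ D)
    (hn : ∀ x ∈ B, ∀ i, x + Pi.single i 1 ∈ D ∧ x - Pi.single i 1 ∈ D) (ω : Env d)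
    (u : Zd d → ℤ) (x : Zd d) (hx : x ∈ B) :
    Lap ω (ext D (fun y : D => ((u y : ℤ) : R))) x = ((Lap ω u x : ℤ) : R) := by
  have h1 : ∀ z ∈ D, ext D (fun y : D => ((u y : ℤ) : R)) z = ((u z : ℤ) : R) := by
    intro z hz
    unfold Pool.Agent.TH974.IH.ext
    rw [dif_pos hz]
  unfold Lap
  push_cast
  refine Finset.sum_congr rfl fun i _ => ?_
  rw [h1 _ (hn x hx i).1, h1 _ (hn x hx i).2, h1 x (hBD hx)]

theorem HH_le_WW {d : ℕ} (D B : Finset (Zd d)) (hBD : B ⊆ D)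
    (hn : ∀ x ∈ B, ∀ i, x + Pi.single i 1 ∈ D ∧ x - Pi.single i 1 ∈ D) (ω : Env d) (q : ℕ)
    [Fact q.Prime] :
    Module.finrank (ZMod q) (HH q D B ω) ≤ Module.finrank ℚ (WW ℚ D B ω) := by
  have hq : q.Prime := Fact.out
  obtain ⟨f, hf, -, hli⟩ := Submodule.exists_fun_fin_finrank_span_eq (ZMod q)
    {w : D → ZMod q | ∃ u : Zd d → ℤ, (∀ x ∈ B, Lap ω u x = 0) ∧
      ∀ y : D, w y = ((u y : ℤ) : ZMod q)}
  choose u hu1 hu2 using hf
  have h1 : LinearIndependent (ZMod q) (fun i (y : D) => ((u i y : ℤ) : ZMod q)) := by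
    have e : f = (fun i (y : D) => ((u i y : ℤ) : ZMod q)) := by
      funext i y
      exact hu2 i y
    rw [e] at hli
    exact hli
  have h2 := Pool.Agent.TH999.IHLin.li_rat q hq.two_le (fun i (y : D) => u i y) h1
  have hW : ∀ i, (fun y : D => ((u i y : ℤ) : ℚ)) ∈ WW ℚ D B ω := by
    intro i x hx
    rw [lap_ext D B hBD hn ω (u i) x hx, hu1 i x hx, Int.cast_zero]
  have h3 : LinearIndependent ℚ (fun i => (⟨fun y : D => ((u i y : ℤ) : ℚ), hW i⟩ :
      WW ℚ D B ω)) := by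
    refine LinearIndependent.of_comp (Submodule.subtype _) ?_
    exact h2
  have h4 := h3.fintype_card_le_finrank
  rw [Fintype.card_fin] at h4
  exact h4

end Pool.Agent.TH999.J2183
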