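import Mathlib
import Pool.Agent.TH974.IH.Box

/-! Job 2151 (IH-P8): the tooth path. -/

set_option autoImplicit false

open Finset MeasureTheory ProbabilityTheory Filter Topology
open scoped ENNReal NNReal

namespace Pool.Agent.TH999.J2151

open Pool.Agent.TH974.IH

/-- going up along the column `a` from height `0` to height `h` -/
def up (a : ℤ) (h : ℕ) : List (ℤ × ℤ) := (List.range (h + 1)).map (fun k : ℕ => (a, (k : ℤ)))

theorem up_nodup (a : ℤ) (h : ℕ) : (up a h).Nodup := by
  refine List.Nodup.map ?_ List.nodup_range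
  intro x y hxy
  simpa using hxy

theorem mem_up {a : ℤ} {h : ℕ} {v : ℤ × ℤ} : v ∈ up a h ↔ v.1 = a ∧ 0 ≤ v.2 ∧ v.2 ≤ h := by
  unfold up
  rw [List.mem_map]
  constructor
  · rintro ⟨k, hk, rfl⟩
    rw [List.mem_range] at hk
    refine ⟨rfl, by positivity, ?_⟩
    simp only
    omega
  · rintro ⟨h1, h2, h3⟩
    refine ⟨v.2.toNat, List.mem_range.2 (by omega), ?_⟩
    ext
    · exact h1.symm
    · simp only
      omega

theorem up_succ (a : ℤ) (h : ℕ) : up a (h + 1) = up a h ++ [(a, ((h + 1 : ℕ) : ℤ))] := by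
  unfold up
  rw [List.range_succ, List.map_append]
  rfl

theorem up_last (a : ℤ) (h : ℕ) : (up a h).getLast? = some (a, (h : ℤ)) := by
  unfold up
  rw [List.range_succ, List.map_append]
  simp

theorem up_head (a : ℤ) (h : ℕ) : (up a h).head? = some (a, 0) := by
  unfold up
  rw [List.range_succ_eq_map]
  simp

theorem up_chain (a : ℤ) (h : ℕ) : List.IsChain adj2 (up a h) := by
  induction h with
  | zero => simp [up]
  | succ h ih =>
    rw [up_succ, List.isChain_append]
    refine ⟨ih, by simp, ?_⟩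
    intro x hx y hy
    rw [up_last] at hx
    simp only [Option.mem_def, Option.some.injEq] at hx
    simp only [List.head?_cons, Option.mem_def, Option.some.injEq] at hy
    subst hx
    subst hy
    unfold adj2
    simp

theorem apathh (h : ℕ) : ∃ p : List (ℤ × ℤ), p.Nodup ∧ List.IsChain adj2 p ∧
    p.head? = some (1, 0) ∧ p.getLast? = some (0, 0) ∧ p.length = 2 * h + 2 ∧
    ∀ v ∈ p, 0 ≤ v.1 ∧ v.1 ≤ 1 ∧ 0 ≤ v.2 ∧ v.2 ≤ (h : ℤ) := by
  refine ⟨up 1 h ++ (up 0 h).reverse, ?_, ?_, ?_, ?_, ?_, ?_⟩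
  · rw [List.nodup_append]
    refine ⟨up_nodup 1 h, List.nodup_reverse.2 (up_nodup 0 h), ?_⟩
    intro x hx y hy hxy
    rw [List.mem_reverse] at hy
    have h1 := (mem_up.1 hx).1
    have h2 := (mem_up.1 hy).1
    rw [hxy] at h1
    omega
  · rw [List.isChain_append]
    refine ⟨up_chain 1 h, ?_, ?_⟩
    · rw [List.isChain_reverse]
      refine (up_chain 0 h).imp ?_
      intro x y hxy
      unfold adj2 at hxy ⊢
      rw [abs_sub_comm y.1, abs_sub_comm y.2]
      exact hxy
    · intro x hx y hy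
      rw [up_last] at hx
      rw [List.head?_reverse, up_last] at hy
      simp only [Option.mem_def, Option.some.injEq] at hx hy
      subst hx
      subst hy
      unfold adj2
      simp
  · rw [List.head?_append, up_head]
    rfl
  · rw [List.getLast?_append, List.getLast?_reverse, up_head]
    rfl
  · simp [up]
    omega
  · intro v hv
    rw [List.mem_append, List.mem_reverse, mem_up, mem_up] at hv
    omega

theorem apath2 : ∃ p : List (ℤ × ℤ), p.Nodup ∧ List.IsChain adj2 p ∧ p.head? = some (1, 0) ∧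
    p.getLast? = some (0, 0) ∧ p.length = c0 + 10 ∧
    ∀ v ∈ p, 0 ≤ v.1 ∧ v.1 ≤ 1 ∧ 0 ≤ v.2 ∧ 2 * v.2 ≤ (c0 : ℤ) + 8 := by
  have hc : ∃ h : ℕ, c0 + 8 = 2 * h := ⟨4586404, by norm_num [c0]⟩
  obtain ⟨h, hh⟩ := hc
  obtain ⟨p, h1, h2, h3, h4, h5, h6⟩ := apathh h
  refine ⟨p, h1, h2, h3, h4, by omega, fun v hv => ?_⟩
  have := h6 v hv
  have h7 : (c0 : ℤ) + 8 = 2 * h := by exact_mod_cast hh
  omega

end Pool.Agent.TH999.J2151
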