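import Pool.Agent.TH451.MB.Stmt

/-! Job 2006 (MB-PATHCLOSE). -/

namespace Pool.Agent.TH999.MB

open Pool.Agent.TH451.MB Finset

theorem path_close : StPathClose := by
  classical
  intro V τ _ _ _ _ G T hcard N tup htup hadjt hdeg2 F hF φ hinj hadj π1 π2 m hπ1 hπ2 hm h12
    h1m h2m hF1 hF2 hFm c0 c1 c2
  -- the value at `tup i k`
  let val : Fin N → ℕ → V := fun i k =>
    if k = 1 then m 0 i else if k = 2 then π1 i else if k = 3 then m 1 i else
      if k = 4 then π2 i else m 2 i
  have hti : ∀ i k j l, tup i k = tup j l → i = j ∧ k = l := by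
    intro i k j l h
    have := htup (a₁ := (i, k)) (a₂ := (j, l)) h
    exact ⟨congrArg Prod.fst this, congrArg Prod.snd this⟩
  have hmi : ∀ c i d j, m c i = m d j → c = d ∧ i = j := by
    intro i k j l h
    have := hm (a₁ := (i, k)) (a₂ := (j, l)) h
    exact ⟨congrArg Prod.fst this, congrArg Prod.snd this⟩
  have hout : ∀ t, t ∉ F → ∃ i, ∃ k : Fin 7, 1 ≤ k.val ∧ k.val ≤ 5 ∧ t = tup i k := by
    intro t ht
    by_contra h
    exact ht ((hF t).2 h)
  choose I K hK1 hK5 hIK using hout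
  let ψ : τ → V := fun t => if h : t ∈ F then φ t else val (I t h) (K t h).val
  have hψF : ∀ t, t ∈ F → ψ t = φ t := fun t h => dif_pos h
  have hnF : ∀ i (k : Fin 7), 1 ≤ k.val → k.val ≤ 5 → tup i k ∉ F := by
    intro i k h1 h5 h
    exact (hF _).1 h ⟨i, k, h1, h5, rfl⟩
  have hψT : ∀ i (k : Fin 7), 1 ≤ k.val → k.val ≤ 5 → ψ (tup i k) = val i k.val := by
    intro i k h1 h5
    have hn := hnF i k h1 h5
    have e : ψ (tup i k) = val (I _ hn) (K _ hn).val := dif_neg hn
    obtain ⟨e1, e2⟩ := hti _ _ _ _ (hIK _ hn)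
    rw [e, ← e1, ← e2]
  have hvF : ∀ t ∈ F, ∀ i k, φ t ≠ val i k := by
    intro t ht i k
    simp only [val]
    split_ifs
    · exact hFm t ht _ _
    · exact hF1 t ht _
    · exact hFm t ht _ _
    · exact hF2 t ht _
    · exact hFm t ht _ _
  have hvv : ∀ i k j l, 1 ≤ k → k ≤ 5 → 1 ≤ l → l ≤ 5 → val i k = val j l → i = j ∧ k = l := by
    intro i k j l hk1 hk5 hl1 hl5 h
    interval_cases k <;> interval_cases l <;> simp [val] at h ⊢
    all_goals first
      | exact (hmi _ _ _ _ h).2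
      | exact hπ1 h
      | exact hπ2 h
      | exact absurd (hmi _ _ _ _ h).1 (by decide)
      | exact h12 _ _ h
      | exact h12 _ _ h.symm
      | exact h1m _ _ _ h
      | exact h1m _ _ _ h.symm
      | exact h2m _ _ _ h
      | exact h2m _ _ _ h.symm
  have hψ : Function.Injective ψ := by
    intro a b hab
    by_cases ha : a ∈ F <;> by_cases hb : b ∈ F
    · rw [hψF a ha, hψF b hb] at hab
      exact hinj ha hb hab
    · rw [hψF a ha, hIK b hb, hψT _ _ (hK1 b hb) (hK5 b hb)] at hab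
      exact absurd hab (hvF a ha _ _)
    · rw [hψF b hb, hIK a ha, hψT _ _ (hK1 a ha) (hK5 a ha)] at hab
      exact absurd hab.symm (hvF b hb _ _)
    · rw [hIK a ha, hIK b hb, hψT _ _ (hK1 a ha) (hK5 a ha), hψT _ _ (hK1 b hb) (hK5 b hb)] at hab
      obtain ⟨e1, e2⟩ := hvv _ _ _ _ (hK1 a ha) (hK5 a ha) (hK1 b hb) (hK5 b hb) hab
      rw [hIK a ha, hIK b hb, e1, Fin.ext e2]
  have hbij : Function.Bijective ψ :=
    (Fintype.bijective_iff_injective_and_card ψ).2 ⟨hψ, hcard.symm⟩
  have h0F : ∀ i, tup i 0 ∈ F := by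
    intro i
    rw [hF]
    rintro ⟨j, k, hk1, _, h⟩
    obtain ⟨_, e⟩ := hti _ _ _ _ h
    rw [← e] at hk1
    simp at hk1
  have h6F : ∀ i, tup i 6 ∈ F := by
    intro i
    rw [hF]
    rintro ⟨j, k, _, hk5, h⟩
    obtain ⟨_, e⟩ := hti _ _ _ _ h
    rw [← e] at hk5
    simp at hk5
  have hpath : ∀ i (k : Fin 6), G.Adj (ψ (tup i k.castSucc)) (ψ (tup i k.succ)) := by
    intro i k
    fin_cases k
    · have e1 : ψ (tup i 0) = φ (tup i 0) := hψF _ (h0F i)
      have e2 : ψ (tup i 1) = m 0 i := hψT i 1 (by decide) (by decide)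
      change G.Adj (ψ (tup i 0)) (ψ (tup i 1))
      rw [e1, e2]
      exact (c0 i).1
    · have e1 : ψ (tup i 1) = m 0 i := hψT i 1 (by decide) (by decide)
      have e2 : ψ (tup i 2) = π1 i := hψT i 2 (by decide) (by decide)
      change G.Adj (ψ (tup i 1)) (ψ (tup i 2))
      rw [e1, e2]
      exact (c0 i).2.symm
    · have e1 : ψ (tup i 2) = π1 i := hψT i 2 (by decide) (by decide)
      have e2 : ψ (tup i 3) = m 1 i := hψT i 3 (by decide) (by decide)
      change G.Adj (ψ (tup i 2)) (ψ (tup i 3))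
      rw [e1, e2]
      exact (c1 i).1
    · have e1 : ψ (tup i 3) = m 1 i := hψT i 3 (by decide) (by decide)
      have e2 : ψ (tup i 4) = π2 i := hψT i 4 (by decide) (by decide)
      change G.Adj (ψ (tup i 3)) (ψ (tup i 4))
      rw [e1, e2]
      exact (c1 i).2.symm
    · have e1 : ψ (tup i 4) = π2 i := hψT i 4 (by decide) (by decide)
      have e2 : ψ (tup i 5) = m 2 i := hψT i 5 (by decide) (by decide)
      change G.Adj (ψ (tup i 4)) (ψ (tup i 5))
      rw [e1, e2]
      exact (c2 i).1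
    · have e1 : ψ (tup i 5) = m 2 i := hψT i 5 (by decide) (by decide)
      have e2 : ψ (tup i 6) = φ (tup i 6) := hψF _ (h6F i)
      change G.Adj (ψ (tup i 5)) (ψ (tup i 6))
      rw [e1, e2]
      exact (c2 i).2.symm
  -- neighbours of inner vertices
  have hnbr : ∀ i (k l : Fin 6), k.succ = l.castSucc → ∀ b, T.Adj (tup i k.succ) b →
      b = tup i k.castSucc ∨ b = tup i l.succ := by
    intro i k l hkl b hb
    have hc := hdeg2 i k.succ
    have hne : tup i k.castSucc ≠ tup i l.succ := by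
      intro h
      obtain ⟨_, e⟩ := hti _ _ _ _ h
      have e' := congrArg Fin.val e
      have e'' := congrArg Fin.val hkl
      simp at e' e''
      omega
    have hsub : ({tup i k.castSucc, tup i l.succ} : Finset τ) ⊆ nb T (tup i k.succ) univ := by
      intro z hz
      rw [mem_insert, mem_singleton] at hz
      rw [mem_nb]
      refine ⟨mem_univ _, ?_⟩
      rcases hz with rfl | rfl
      · exact (hadjt i k).symm
      · rw [hkl]
        exact hadjt i l
    have heq := eq_of_subset_of_card_le hsub (by rw [hc, card_pair hne])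
    have hb' : b ∈ nb T (tup i k.succ) univ := mem_nb.2 ⟨mem_univ _, hb⟩
    rw [← heq, mem_insert, mem_singleton] at hb'
    exact hb'
  have key : ∀ a b, a ∉ F → T.Adj a b → G.Adj (ψ a) (ψ b) := by
    intro a b ha hab
    obtain ⟨k, l, hk, hl⟩ : ∃ k l : Fin 6, K a ha = k.succ ∧ k.succ = l.castSucc := by
      have h1 := hK1 a ha
      have h5 := hK5 a ha
      refine ⟨⟨(K a ha).val - 1, by omega⟩, ⟨(K a ha).val, by omega⟩, ?_, ?_⟩
      · apply Fin.ext
        simp
        omega
      · apply Fin.ext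
        simp
        omega
    have ea : a = tup (I a ha) k.succ := by rw [← hk]; exact hIK a ha
    rw [ea] at hab ⊢
    rcases hnbr _ k l hl b hab with rfl | rfl
    · exact (hpath _ k).symm
    · rw [hl]
      exact hpath _ l
  refine ⟨Equiv.ofBijective ψ hbij, fun a b hab => ?_⟩
  change G.Adj (ψ a) (ψ b)
  by_cases ha : a ∈ F
  · by_cases hb : b ∈ F
    · rw [hψF a ha, hψF b hb]
      exact hadj a ha b hb hab
    · exact (key b a hb hab.symm).symm
  · exact key a b ha hab

end Pool.Agent.TH999.MB
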