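import Pool.Agent.TH451.MB.Stmt

/-! Job 2005 (MB-PATHHALL). -/

namespace Pool.Agent.TH999.MB

open Pool.Agent.TH451.MB Finset

theorem path_hall : StPathHall := by
  classical
  intro V _ N hN comp W hW h1 h2 h3
  let t : Fin 3 × Fin N → Finset V := fun p => W.filter (fun w => comp p.1 p.2 w)
  have hall : ∀ L : Finset (Fin 3 × Fin N), L.card ≤ (L.biUnion t).card := by
    intro L
    by_contra hlt
    push Not at hlt
    set NL := L.biUnion t with hNL
    have hne : L.Nonempty := by
      rw [nonempty_iff_ne_empty]
      rintro rfl
      simp at hlt
    obtain ⟨⟨c0, i0⟩, hp0⟩ := hne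
    have hsub : W.filter (fun w => comp c0 i0 w) ⊆ NL :=
      subset_biUnion_of_mem t hp0
    have h80 : N ≤ 80 * NL.card := by
      have := h1 c0 i0
      have h4 := card_le_card hsub
      have h5 : (W.filter (fun w => comp c0 i0 w)).card ≤ NL.card := h4
      refine this.trans (Nat.mul_le_mul_left 80 ?_)
      convert h5
    have hNLW : NL ⊆ W := by
      rw [hNL, biUnion_subset]
      intro p _
      exact filter_subset _ _
    have hLle : L.card ≤ 3 * N := by
      have := card_le_univ L
      simpa using this
    have hW' : (W \ NL).card + NL.card = 3 * N := by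
      rw [card_sdiff_add_card_eq_card hNLW, hW]
    by_cases hbig : N ≤ 10 ^ 7 * (W \ NL).card
    · -- the fibres of `L` are small
      have hc : ∀ c : Fin 3, 300 * (L.filter (fun p => p.1 = c)).card ≤ N := by
        intro c
        have h6 := h3 c (W \ NL) sdiff_subset hbig
        refine le_trans (Nat.mul_le_mul_left 300 ?_) h6
        refine card_le_card_of_injOn (fun p => p.2) ?_ ?_
        · intro p hp
          simp only [coe_filter, Set.mem_ofPred_eq] at hp
          simp only [coe_filter, mem_univ, true_and, Set.mem_ofPred_eq]
          intro w hw hcw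
          rw [mem_sdiff] at hw
          apply hw.2
          rw [hNL, mem_biUnion]
          refine ⟨p, hp.1, ?_⟩
          rw [mem_filter]
          refine ⟨hw.1, ?_⟩
          rw [hp.2]
          exact hcw
        · intro p hp q hq hpq
          simp only [coe_filter, Set.mem_ofPred_eq] at hp hq
          exact Prod.ext (hp.2.trans hq.2.symm) hpq
      have hsum : L.card = ∑ c : Fin 3, (L.filter (fun p => p.1 = c)).card :=
        card_eq_sum_card_fiberwise (fun p _ => mem_univ _)
      rw [Fin.sum_univ_three] at hsum
      have a0 := hc 0
      have a1 := hc 1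
      have a2 := hc 2
      omega
    · push Not at hbig
      have hne' : (W \ NL).Nonempty := by
        rw [← card_pos]
        omega
      obtain ⟨w, hw⟩ := hne'
      have hg := h2 w (sdiff_subset hw)
      -- the slots (1, i) with `comp 1 i w` are not in L
      have hdis : L.card + (univ.filter (fun i => comp 1 i w)).card ≤ 3 * N := by
        have h7 : ((univ.filter (fun i => comp 1 i w)).image (fun i => ((1 : Fin 3), i))).card =
            (univ.filter (fun i => comp 1 i w)).card :=
          card_image_of_injective _ (fun a b h => (Prod.mk.inj h).2)
        have h8 : Disjoint L ((univ.filter (fun i => comp 1 i w)).image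
            (fun i => ((1 : Fin 3), i))) := by
          rw [disjoint_left]
          intro p hp hp'
          rw [mem_image] at hp'
          obtain ⟨i, hi, rfl⟩ := hp'
          rw [mem_sdiff] at hw
          apply hw.2
          rw [hNL, mem_biUnion]
          refine ⟨_, hp, ?_⟩
          rw [mem_filter]
          exact ⟨hw.1, (mem_filter.1 hi).2⟩
        rw [← h7, ← card_union_of_disjoint h8]
        have := card_le_univ (L ∪ (univ.filter (fun i => comp 1 i w)).image
            (fun i => ((1 : Fin 3), i)))
        simpa using this
      have hg' : N ≤ 10 ^ 7 * (univ.filter (fun i => comp 1 i w)).card := by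
        convert hg
      omega
  obtain ⟨f, hf, hft⟩ := (all_card_le_biUnion_card_iff_exists_injective t).1 hall
  refine ⟨fun c i => f (c, i), hf, fun c i => ?_, fun c i => ?_⟩
  · exact (mem_filter.1 (hft (c, i))).1
  · exact (mem_filter.1 (hft (c, i))).2

end Pool.Agent.TH999.MB
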