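import Mathlib
import Pool.Agent.TH161.KS.Defs
import Pool.Agent.TH161.KS.Basic

/-!
# Project KS, step END: an element at the right place gives a balanced pair
-/

set_option autoImplicit false

open Finset Filter Topology
open scoped Classical

namespace Pool.Agent.TH999.KS_END

open Pool.Agent.TH161.LW Pool.Agent.TH161.KS

theorem t_END : P_END := by
  intro α _ _ M hS ε b ς R x y q hε hε2 hb hς hv1 hR htau hpar hq1 hq2 z hz hU
  have hne := hS.ne
  have hUp : 0 < unit α M := unit_pos
  set U := unit α M with hUdef
  set s : ℝ := √ς with hs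
  have hs0 : 0 < s := Real.sqrt_pos.mpr hς
  have hss : s * s = ς := Real.mul_self_sqrt hς.le
  set v : ℝ := s * R with hv
  have hv0 : 0 < v := mul_pos hs0 hR
  set c : ℝ := q / U with hc
  -- Markov
  have hM : pr α M (fun f => v ≤ |dd M y z f - c|) ≤ s := by
    refine (markov_div (fun f _ => abs_nonneg _) hv0 hz).trans_eq ?_
    rw [hv, ← hss]
    field_simp
  have htau0 : 0 < tau M y x := lt_of_lt_of_le (by positivity) htau
  -- small balls
  have hball : ∀ u w k : ℝ, 0 ≤ w → 38 * (w + 1) ≤ k * v → 0 ≤ k →
      pr α M (fun f => u ≤ dd M y x f ∧ dd M y x f < u + w) ≤ 2 * k / b * s := by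
    intro u w k hw hk hk0
    have h1 := hS.ball y x u w hw
    set p := pr α M (fun f => u ≤ dd M y x f ∧ dd M y x f < u + w) with hp
    have hp0 : 0 ≤ p := pr_nonneg _
    have h2 : b * R / 2 * p ≤ k * (s * R) :=
      (mul_le_mul_of_nonneg_right htau hp0).trans (h1.trans hk)
    have h3 : R * (b / 2 * p) ≤ R * (k * s) := by nlinarith
    have h4 : b / 2 * p ≤ k * s := le_of_mul_le_mul_left h3 hR
    have h5 : 2 * k / b * s = (k * s) / (b / 2) := by field_simp
    rw [h5, le_div_iff₀ (by positivity)]
    linarith
  have hb1 := hball c v (76) hv0.le (by nlinarith) (by norm_num)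
  have hb2 := hball (c - v) (v + 1) (114) (by linarith) (by nlinarith) (by norm_num)
  -- dd y x in terms of the difference
  have hdd : ∀ (f : α → ℕ) (w : α), (f w : ℝ) - f y = dd M y w f * U := by
    intro f w
    unfold dd
    rw [← hUdef]
    field_simp
  have hcU : c * U = q := by rw [hc]; field_simp
  -- first
  have h1 : 1 / 2 - (2 * 76 / b * s) - s ≤ pr α M (fun f => f z < f x) := by
    have hA : pr α M (fun f => q ≤ (f x : ℤ) - f y) ≤
        pr α M (fun f => f z < f x) + pr α M (fun f =>
          (c ≤ dd M y x f ∧ dd M y x f < c + v) ∨ v ≤ |dd M y z f - c|) := by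
      refine pr_le_add fun f _ hf => ?_
      by_cases h : (c ≤ dd M y x f ∧ dd M y x f < c + v) ∨ v ≤ |dd M y z f - c|
      · exact Or.inr h
      · left
        rw [not_or] at h
        obtain ⟨ha, hb'⟩ := h
        have hf' : (q : ℝ) ≤ (f x : ℝ) - f y := by exact_mod_cast hf
        have hcle : c ≤ dd M y x f := by
          rw [hdd f x, ← hcU] at hf'
          exact le_of_mul_le_mul_right hf' hUp
        have hge : c + v ≤ dd M y x f := by
          by_contra hcon
          exact ha ⟨hcle, not_le.mp hcon⟩
        rw [not_le, abs_lt] at hb'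
        have hlt : dd M y z f < dd M y x f := by linarith [hb'.2]
        have h3 : (f z : ℝ) - f y < (f x : ℝ) - f y := by
          rw [hdd f z, hdd f x]
          exact mul_lt_mul_of_pos_right hlt hUp
        have h4 : (f z : ℝ) < f x := by linarith
        exact_mod_cast h4
    have hB := pr_or (α := α) (M := M) (fun f => c ≤ dd M y x f ∧ dd M y x f < c + v)
      (fun f => v ≤ |dd M y z f - c|)
    linarith
  -- second
  have h2 : 1 / 2 - (2 * 114 / b * s) - s ≤ pr α M (fun f => f x < f z) := by
    have hA : pr α M (fun f => (f x : ℤ) - f y ≤ q) ≤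
        pr α M (fun f => f x < f z) + pr α M (fun f =>
          (c - v ≤ dd M y x f ∧ dd M y x f < c - v + (v + 1)) ∨ v ≤ |dd M y z f - c|) := by
      refine pr_le_add fun f _ hf => ?_
      by_cases h : (c - v ≤ dd M y x f ∧ dd M y x f < c - v + (v + 1)) ∨ v ≤ |dd M y z f - c|
      · exact Or.inr h
      · left
        rw [not_or] at h
        obtain ⟨ha, hb'⟩ := h
        have hf' : (f x : ℝ) - f y ≤ (q : ℝ) := by exact_mod_cast hf
        have hcle : dd M y x f ≤ c := by
          rw [hdd f x, ← hcU] at hf'
          exact le_of_mul_le_mul_right hf' hUp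
        have hge : dd M y x f < c - v := by
          by_contra hcon
          exact ha ⟨not_lt.mp hcon, by linarith⟩
        rw [not_le, abs_lt] at hb'
        have hlt : dd M y x f < dd M y z f := by linarith [hb'.1]
        have h3 : (f x : ℝ) - f y < (f z : ℝ) - f y := by
          rw [hdd f z, hdd f x]
          exact mul_lt_mul_of_pos_right hlt hUp
        have h4 : (f x : ℝ) < f z := by linarith
        exact_mod_cast h4
    have hB := pr_or (α := α) (M := M) (fun f => c - v ≤ dd M y x f ∧ dd M y x f < c - v + (v + 1))
      (fun f => v ≤ |dd M y z f - c|)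
    linarith
  have hbs : 0 < s / b := by positivity
  have e1 : (300 / b + 1) * s = 300 * (s / b) + s := by ring
  have e2 : 2 * 76 / b * s = 152 * (s / b) := by ring
  have e3 : 2 * 114 / b * s = 228 * (s / b) := by ring
  rw [e1] at hpar
  rw [e2] at h1
  rw [e3] at h2
  have g1 : 1 / 2 - ε < pr α M (fun f => f z < f x) := by linarith
  have g2 : 1 / 2 - ε < pr α M (fun f => f x < f z) := by linarith
  by_cases hxz : x = z
  · rw [hxz] at g1
    have : pr α M (fun f => f z < f z) = 0 := by
      unfold TH161.KS.pr
      simp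
    rw [this] at g1
    linarith
  · rcases hU x z hxz with h | h
    · linarith
    · linarith

end Pool.Agent.TH999.KS_END
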