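import Mathlib

/-!
# Extending derivations along formally smooth maps
-/

set_option autoImplicit false

universe u

namespace Pool.Agent.TH999.FLExt

open Module

/-- a derivation of `R` with values in a formally smooth `R`-algebra `S` extends to `S` -/
theorem exists_extend (k R S : Type u) [CommRing k] [CommRing R] [CommRing S] [Algebra k R]
    [Algebra k S] [Algebra R S] [IsScalarTower k R S] [Algebra.FormallySmooth R S]
    (δ : Derivation k R S) :
    ∃ δ₁ : Derivation k S S, ∀ a, δ₁ (algebraMap R S a) = δ a := by
  let φ : R →+* DualNumber S :=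
    { toFun := fun a => TrivSqZeroExt.inl (algebraMap R S a) + TrivSqZeroExt.inr (δ a)
      map_one' := by
        ext <;> simp
      map_zero' := by
        ext <;> simp
      map_add' := by
        intro a b
        ext <;> simp
      map_mul' := by
        intro a b
        refine TrivSqZeroExt.ext ?_ ?_
        · rw [TrivSqZeroExt.fst_mul]
          simp only [TrivSqZeroExt.fst_add, TrivSqZeroExt.fst_inl, TrivSqZeroExt.fst_inr, map_mul,
            add_zero]
        · rw [TrivSqZeroExt.snd_mul]
          simp only [TrivSqZeroExt.fst_add, TrivSqZeroExt.fst_inl, TrivSqZeroExt.fst_inr,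
            TrivSqZeroExt.snd_add, TrivSqZeroExt.snd_inl, TrivSqZeroExt.snd_inr, add_zero,
            zero_add, Derivation.leibniz, Algebra.smul_def,
            MulOpposite.smul_eq_mul_unop, MulOpposite.unop_op]
          simp only [Algebra.algebraMap_self, RingHom.id_apply]
          ring }
  let _ : Algebra R (DualNumber S) := φ.toAlgebra
  let g : DualNumber S →ₐ[R] S :=
    { TrivSqZeroExt.fstHom S S S with
      commutes' := by
        intro a
        change TrivSqZeroExt.fst (φ a) = _
        simp [φ] }
  have hg : Function.Surjective g := by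
    intro x
    exact ⟨TrivSqZeroExt.inl x, TrivSqZeroExt.fst_inl S x⟩
  have hker : IsNilpotent (RingHom.ker (g : DualNumber S →+* S)) := by
    refine ⟨2, ?_⟩
    refine (pow_two (RingHom.ker (g : DualNumber S →+* S))).trans ?_
    rw [Ideal.zero_eq_bot, eq_bot_iff, Ideal.mul_le]
    intro x hx y hy
    have hx' : TrivSqZeroExt.fst x = 0 := hx
    have hy' : TrivSqZeroExt.fst y = 0 := hy
    rw [Ideal.mem_bot]
    ext
    · simp [hx']
    · simp [hx', hy']
  let f : S →ₐ[R] DualNumber S :=
    Algebra.FormallySmooth.liftOfSurjective (AlgHom.id R S) g hg hker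
  have hf : ∀ x, TrivSqZeroExt.fst (f x) = x := fun x =>
    Algebra.FormallySmooth.liftOfSurjective_apply (AlgHom.id R S) g hg hker x
  have hfa : ∀ a : R, f (algebraMap R S a) =
      TrivSqZeroExt.inl (algebraMap R S a) + TrivSqZeroExt.inr (δ a) := fun a => f.commutes a
  have hc : ∀ c : k, f (algebraMap k S c) = TrivSqZeroExt.inl (algebraMap k S c) := by
    intro c
    rw [IsScalarTower.algebraMap_apply k R S, hfa]
    simp
  refine ⟨Derivation.mk'
    { toFun := fun x => TrivSqZeroExt.snd (f x)
      map_add' := by
        intro x y
        simp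
      map_smul' := by
        intro c x
        rw [Algebra.smul_def, map_mul, hc]
        simp [Algebra.smul_def] } ?_, ?_⟩
  · intro x y
    change TrivSqZeroExt.snd (f (x * y)) = x • TrivSqZeroExt.snd (f y) +
      y • TrivSqZeroExt.snd (f x)
    rw [map_mul, TrivSqZeroExt.snd_mul, hf, hf, op_smul_eq_smul]
  · intro a
    change TrivSqZeroExt.snd (f (algebraMap R S a)) = δ a
    rw [hfa]
    simp

/-- an extension of fields of characteristic zero is formally smooth -/
theorem formallySmooth (K K₁ : Type u) [Field K] [Field K₁] [Algebra K K₁] [CharZero K] :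
    Algebra.FormallySmooth K K₁ := by
  obtain ⟨s, hs⟩ := exists_isTranscendenceBasis K K₁
  have hs1 := hs.1
  have halg := hs.isAlgebraic_field
  have : Algebra.IsSeparable (IntermediateField.adjoin K (Set.range ((↑) : s → K₁))) K₁ := by
    have : CharZero (IntermediateField.adjoin K (Set.range ((↑) : s → K₁))) :=
      charZero_of_injective_algebraMap
        (algebraMap K (IntermediateField.adjoin K (Set.range ((↑) : s → K₁)))).injective
    infer_instance
  exact Algebra.FormallySmooth.of_algebraicIndependent_of_isSeparable hs1

end Pool.Agent.TH999.FLExt
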