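import Pool.Agent.TH28.FL.DatK
import Pool.Agent.TH999.FLExt

/-!
# FL3-EXT: extension of derivations to extension fields
-/

set_option autoImplicit false

universe u

namespace Pool.Agent.TH999.J1840

open Pool.Agent.TH28.FL Pool.Agent.TH999.FLExt

theorem ext : S_EXT.{u} := by
  intro k _ _ K K₁ _ _ _ _ _ _ δ
  have : CharZero K := charZero_of_injective_algebraMap (algebraMap k K).injective
  have : Algebra.FormallySmooth K K₁ := formallySmooth K K₁
  obtain ⟨δ₁, h⟩ := exists_extend k K K₁ ((Algebra.linearMap K K₁).compDer δ)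
  exact ⟨δ₁, fun a => by rw [h]; rfl⟩

end Pool.Agent.TH999.J1840
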