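import Pool.Agent.TH28.FL.DatK
import Pool.Agent.TH999.FLExt

/-!
# FL3-KT: the field `K(t)`
-/

set_option autoImplicit false

universe u

namespace Pool.Agent.TH999.J1841

open Pool.Agent.TH28.FL Pool.Agent.TH999.FLExt

theorem kt : S_KT.{u} := by
  intro k _ _ K _ _
  have : Algebra.FormallySmooth (Polynomial K) (FractionRing (Polynomial K)) :=
    Algebra.FormallySmooth.of_isLocalization (nonZeroDivisors (Polynomial K))
  have e : ∀ δ : Derivation k (Polynomial K) (Polynomial K),
      ∃ δ₁ : Derivation k (FractionRing (Polynomial K)) (FractionRing (Polynomial K)),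
        ∀ p, δ₁ (algebraMap (Polynomial K) _ p) = algebraMap (Polynomial K) _ (δ p) := by
    intro δ
    obtain ⟨δ₁, h⟩ := exists_extend k (Polynomial K) (FractionRing (Polynomial K))
      ((Algebra.linearMap (Polynomial K) (FractionRing (Polynomial K))).compDer δ)
    exact ⟨δ₁, fun a => by rw [h]; rfl⟩
  refine ⟨FractionRing (Polynomial K), inferInstance, inferInstance, inferInstance, inferInstance,
    algebraMap (Polynomial K) _ Polynomial.X, ?_, ?_, ?_⟩
  · have h1 : Transcendental K (Polynomial.X : Polynomial K) := Polynomial.transcendental_X K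
    exact (transcendental_algebraMap_iff (IsFractionRing.injective (Polynomial K)
      (FractionRing (Polynomial K)))).2 h1
  · intro δ
    obtain ⟨δ₁, h⟩ := e ((PolynomialModule.equivPolynomialSelf (R := K)).toLinearMap.compDer
      δ.mapCoeffs)
    refine ⟨δ₁, fun a => ?_, ?_⟩
    · rw [IsScalarTower.algebraMap_apply K (Polynomial K) (FractionRing (Polynomial K)), h,
        IsScalarTower.algebraMap_apply K (Polynomial K) (FractionRing (Polynomial K))]
      congr 1
      change PolynomialModule.equivPolynomialSelf (δ.mapCoeffs (Polynomial.C a)) = _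
      rw [← Polynomial.monomial_zero_left, Derivation.mapCoeffs_monomial]
      ext n
      simp [PolynomialModule.equivPolynomialSelf]
    · rw [h]
      have h0 : ((PolynomialModule.equivPolynomialSelf (R := K)).toLinearMap.compDer
          δ.mapCoeffs) Polynomial.X = 0 := by
        change PolynomialModule.equivPolynomialSelf (δ.mapCoeffs Polynomial.X) = _
        rw [← Polynomial.monomial_one_one_eq_X, Derivation.mapCoeffs_monomial]
        simp
      rw [h0, map_zero]
  · obtain ⟨δ₁, h⟩ := e ((Polynomial.derivative'.restrictScalars k))
    refine ⟨δ₁, fun a => ?_, ?_⟩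
    · rw [IsScalarTower.algebraMap_apply K (Polynomial K) (FractionRing (Polynomial K)), h]
      simp
    · rw [h]
      simp

end Pool.Agent.TH999.J1841
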