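import Pool.Agent.TH28.FL.DatK
import Pool.Agent.TH999.FLExt

/-!
# FL3-GEN: algebraically independent elements and dual derivations
-/

set_option autoImplicit false

universe u

namespace Pool.Agent.TH999.J1842

open Pool.Agent.TH28.FL Pool.Agent.TH999.FLExt

theorem gen : S_GEN.{u} := by
  intro k _ _ K _ _ p
  have hK : CharZero K := charZero_of_injective_algebraMap (algebraMap k K).injective
  have hF : CharZero (FractionRing (MvPolynomial (Fin p) K)) :=
    charZero_of_injective_algebraMap
      (algebraMap K (FractionRing (MvPolynomial (Fin p) K))).injective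
  have s1 : Algebra.FormallySmooth (MvPolynomial (Fin p) K)
      (FractionRing (MvPolynomial (Fin p) K)) :=
    Algebra.FormallySmooth.of_isLocalization (nonZeroDivisors (MvPolynomial (Fin p) K))
  have s2 : Algebra.FormallySmooth (FractionRing (MvPolynomial (Fin p) K))
      (AlgebraicClosure (FractionRing (MvPolynomial (Fin p) K))) := formallySmooth _ _
  have s3 : Algebra.FormallySmooth (MvPolynomial (Fin p) K)
      (AlgebraicClosure (FractionRing (MvPolynomial (Fin p) K))) :=
    Algebra.FormallySmooth.comp _ (FractionRing (MvPolynomial (Fin p) K)) _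
  have e : ∀ δ : Derivation k (MvPolynomial (Fin p) K) (MvPolynomial (Fin p) K),
      ∃ δ₁ : Derivation k (AlgebraicClosure (FractionRing (MvPolynomial (Fin p) K)))
        (AlgebraicClosure (FractionRing (MvPolynomial (Fin p) K))),
        ∀ q, δ₁ (algebraMap (MvPolynomial (Fin p) K) _ q) =
          algebraMap (MvPolynomial (Fin p) K) _ (δ q) := by
    intro δ
    obtain ⟨δ₁, h⟩ := exists_extend k (MvPolynomial (Fin p) K)
      (AlgebraicClosure (FractionRing (MvPolynomial (Fin p) K)))
      ((Algebra.linearMap (MvPolynomial (Fin p) K) _).compDer δ)
    exact ⟨δ₁, fun a => by rw [h]; rfl⟩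
  choose E hE using e
  refine ⟨AlgebraicClosure (FractionRing (MvPolynomial (Fin p) K)), inferInstance, inferInstance,
    inferInstance, inferInstance, inferInstance,
    fun i => algebraMap (MvPolynomial (Fin p) K) _ (MvPolynomial.X i), ?_,
    fun i => E ((MvPolynomial.pderiv i).restrictScalars k), ?_⟩
  · have h1 : AlgebraicIndependent K
        (fun i => algebraMap (MvPolynomial (Fin p) K)
          (AlgebraicClosure (FractionRing (MvPolynomial (Fin p) K))) (MvPolynomial.X i)) := by
      have hx := MvPolynomial.algebraicIndependent_X (Fin p) K
      have hinj : Function.Injective (algebraMap (MvPolynomial (Fin p) K)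
          (AlgebraicClosure (FractionRing (MvPolynomial (Fin p) K)))) := by
        rw [IsScalarTower.algebraMap_eq (MvPolynomial (Fin p) K)
          (FractionRing (MvPolynomial (Fin p) K))]
        exact (algebraMap (FractionRing (MvPolynomial (Fin p) K)) _).injective.comp
          (IsFractionRing.injective _ _)
      exact hx.map' (f := IsScalarTower.toAlgHom K (MvPolynomial (Fin p) K)
        (AlgebraicClosure (FractionRing (MvPolynomial (Fin p) K)))) hinj
    exact h1.restrictScalars (algebraMap k K).injective
  · intro i j
    rw [hE]
    have : ((MvPolynomial.pderiv i).restrictScalars k) (MvPolynomial.X j) =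
        (if i = j then 1 else 0 : MvPolynomial (Fin p) K) := by
      change MvPolynomial.pderiv i (MvPolynomial.X j) = _
      rw [MvPolynomial.pderiv_X]
      by_cases h : i = j
      · subst h
        simp
      · simp [h, Ne.symm h]
    rw [this]
    split <;> simp

end Pool.Agent.TH999.J1842
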