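import Pool.Agent.TH28.FL.DatK

/-!
# FL3-G3: the generic element has the smallest Engel subalgebra
-/

set_option autoImplicit false

universe u v

namespace Pool.Agent.TH999.J1851

open Module TensorProduct MvPolynomial Pool.Agent.TH28.FL

/-- the generic matrix -/
noncomputable def gmat {k : Type u} [Field k] {n p : ℕ} (A : Fin p → Matrix (Fin n) (Fin n) k) :
    Matrix (Fin n) (Fin n) (MvPolynomial (Fin p) k) :=
  ∑ i, (X i : MvPolynomial (Fin p) k) • (A i).map C

theorem gmat_map {k : Type u} [Field k] {K : Type u} [Field K] [Algebra k K] {n p : ℕ}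
    (A : Fin p → Matrix (Fin n) (Fin n) k) (y : Fin p → K) :
    (gmat A).map (aeval y) = ∑ i, y i • (A i).map (algebraMap k K) := by
  ext a b
  simp only [gmat, Matrix.map_apply, Matrix.sum_apply, Matrix.smul_apply, map_sum, smul_eq_mul,
    map_mul, aeval_X, aeval_C]

theorem toMatrix_bc {k : Type u} [Field k] {s : Type v} [AddCommGroup s] [Module k s] {n : ℕ}
    (e : Basis (Fin n) k s) {K : Type u} [Field K] [Algebra k K] (f : s →ₗ[k] s) :
    LinearMap.toMatrix (e.baseChange K) (e.baseChange K) (f.baseChange K) =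
      (LinearMap.toMatrix e e f).map (algebraMap k K) := by
  ext i j
  simp [LinearMap.toMatrix_apply, Algebra.algebraMap_eq_smul_one]

theorem ad_toMatrix {k : Type u} [Field k] {s : Type v} [LieRing s] [LieAlgebra k s] {n : ℕ}
    (e : Basis (Fin n) k s) {K : Type u} [Field K] [Algebra k K] {p : ℕ} (v : Fin p → s)
    (y : Fin p → K) :
    LinearMap.toMatrix (e.baseChange K) (e.baseChange K)
      (LieAlgebra.ad K (K ⊗[k] s) (∑ i, y i ⊗ₜ[k] v i)) =
    ∑ i, y i • (LinearMap.toMatrix e e (LieAlgebra.ad k s (v i))).map (algebraMap k K) := by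
  have h : LieAlgebra.ad K (K ⊗[k] s) (∑ i, y i ⊗ₜ[k] v i) =
      ∑ i, y i • (LieAlgebra.ad k s (v i)).baseChange K := by
    rw [map_sum]
    refine Finset.sum_congr rfl fun i _ => ?_
    apply TensorProduct.AlgebraTensorModule.ext
    intro a x
    simp [TensorProduct.smul_tmul', mul_comm]
  rw [h, map_sum]
  refine Finset.sum_congr rfl fun i _ => ?_
  rw [map_smul, toMatrix_bc]

theorem g3 : S_G3.{u,v} := by
  intro k _ _ s _ _ _ p v K _ _ X' hX y
  let e := finBasis k s
  let A : Fin p → Matrix (Fin (finrank k s)) (Fin (finrank k s)) k := fun i =>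
    LinearMap.toMatrix e e (LieAlgebra.ad k s (v i))
  let Q := (gmat A).charpoly
  have hQ : ∀ z : Fin p → K, (LieAlgebra.ad K (K ⊗[k] s) (∑ i, z i ⊗ₜ[k] v i)).charpoly =
      Q.map (aeval z : MvPolynomial (Fin p) k →ₐ[k] K).toRingHom := by
    intro z
    rw [← LinearMap.charpoly_toMatrix _ (e.baseChange K), ad_toMatrix, ← gmat_map]
    exact Matrix.charpoly_map (gmat A) (aeval z : MvPolynomial (Fin p) k →ₐ[k] K).toRingHom
  have hf : ∀ z : Fin p → K, finrank K (LieSubalgebra.engel K (∑ i, z i ⊗ₜ[k] v i)) =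
      (Q.map (aeval z : MvPolynomial (Fin p) k →ₐ[k] K).toRingHom).natTrailingDegree := by
    intro z
    rw [← hQ]
    exact LieAlgebra.finrank_engel K (∑ i, z i ⊗ₜ[k] v i)
  rw [hf, hf]
  have hm : Q.Monic := Matrix.charpoly_monic _
  refine Polynomial.le_natTrailingDegree (hm.map _).ne_zero ?_
  intro m hm'
  have h1 := Polynomial.coeff_eq_zero_of_lt_natTrailingDegree hm'
  rw [Polynomial.coeff_map] at h1 ⊢
  have h2 : Q.coeff m = 0 := by
    have := (injective_iff_map_eq_zero _).1 hX
    exact this _ h1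
  rw [h2, map_zero]

end Pool.Agent.TH999.J1851
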