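import Pool.Agent.TH28.FL.DatK
import Pool.Agent.TH999.J1851

/-!
# FL3-SB: the derivative of an element is orthogonal to part of its centraliser
-/

set_option autoImplicit false

universe u v

namespace Pool.Agent.TH999.J1850

open Module TensorProduct Pool.Agent.TH28.FL Pool.Agent.TH999.J1851

section mat

variable {k : Type u} [Field k] {K : Type u} [Field K] [Algebra k K] {n : ℕ}
  (δ : Derivation k K K)

theorem map_mul' (x y : Matrix (Fin n) (Fin n) K) :
    (x * y).map δ = x.map δ * y + x * y.map δ := by
  ext i j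
  simp only [Matrix.map_apply, Matrix.mul_apply, Matrix.add_apply, map_sum, Derivation.leibniz,
    smul_eq_mul, ← Finset.sum_add_distrib]
  exact Finset.sum_congr rfl fun l _ => by ring

theorem map_smul' (c : K) (x : Matrix (Fin n) (Fin n) K) :
    (c • x).map δ = δ c • x + c • x.map δ := by
  ext i j
  simp only [Matrix.map_apply, Matrix.smul_apply, Matrix.add_apply, Derivation.leibniz,
    smul_eq_mul]
  ring

theorem map_add' (x y : Matrix (Fin n) (Fin n) K) :
    (x + y).map δ = x.map δ + y.map δ := by
  ext i j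
  simp

theorem map_one' : (1 : Matrix (Fin n) (Fin n) K).map δ = 0 := by
  ext i j
  by_cases h : i = j
  · subst h; simp
  · simp [Matrix.one_apply_ne h]

theorem tr_pow (x : Matrix (Fin n) (Fin n) K) (m : ℕ) : ∀ y : Matrix (Fin n) (Fin n) K,
    x * y = y * x → ((x ^ m).map δ * y).trace = m * (x.map δ * x ^ (m - 1) * y).trace := by
  induction m with
  | zero =>
    intro y _
    rw [pow_zero, map_one']
    simp
  | succ m ih =>
    intro y hy
    have hy1 : x * (x * y) = (x * y) * x := by rw [Matrix.mul_assoc, hy]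
    have hc : x ^ m * y = y * x ^ m := (show Commute x y from hy).pow_left m
    have hA : (m : K) * (x.map δ * x ^ (m - 1) * (x * y)).trace =
        m * (x.map δ * x ^ m * y).trace := by
      rcases m with _ | m
      · simp
      · rw [Nat.add_sub_cancel, pow_succ x m, Matrix.mul_assoc, Matrix.mul_assoc,
          Matrix.mul_assoc (x ^ m)]
    have hB : (x ^ m * x.map δ * y).trace = (x.map δ * x ^ m * y).trace := by
      rw [Matrix.trace_mul_cycle, ← hc, Matrix.trace_mul_comm, Matrix.mul_assoc]
    rw [pow_succ, map_mul', Matrix.add_mul, Matrix.trace_add, Matrix.mul_assoc, ih _ hy1, hA, hB,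
      Nat.add_sub_cancel]
    push_cast
    ring

theorem tr_poly (x : Matrix (Fin n) (Fin n) K) (p : Polynomial K) :
    ∃ q : Polynomial K, ∀ y : Matrix (Fin n) (Fin n) K, x * y = y * x →
      ((Polynomial.aeval x p).map δ * y).trace = (Polynomial.aeval x q * y).trace +
        (x.map δ * Polynomial.aeval x p.derivative * y).trace := by
  induction p using Polynomial.induction_on' with
  | add p r hp hr =>
    obtain ⟨q, hq⟩ := hp
    obtain ⟨t, ht⟩ := hr
    refine ⟨q + t, fun y hy => ?_⟩
    rw [map_add, map_add', Matrix.add_mul, Matrix.trace_add, hq y hy, ht y hy, map_add,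
      Polynomial.derivative_add, map_add, Matrix.mul_add, Matrix.add_mul, Matrix.add_mul,
      Matrix.trace_add, Matrix.trace_add]
    ring
  | monomial m a =>
    refine ⟨Polynomial.monomial m (δ a), fun y hy => ?_⟩
    have h1 : ∀ c : K, Polynomial.aeval x (Polynomial.monomial m c) = c • x ^ m := by
      intro c
      rw [Polynomial.aeval_monomial, Algebra.smul_def]
    rw [h1, h1, map_smul', Matrix.add_mul, Matrix.trace_add, Polynomial.derivative_monomial,
      Polynomial.aeval_monomial, ← Algebra.smul_def]
    simp only [Matrix.mul_smul, Matrix.smul_mul, Matrix.trace_smul, smul_eq_mul]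
    rw [tr_pow δ x m y hy]
    ring

/-- the derivative of a matrix with separable annihilating polynomial -/
theorem tr_sep (x : Matrix (Fin n) (Fin n) K) (p : Polynomial K) (hp : p.Separable)
    (h0 : Polynomial.aeval x p = 0) : ∃ q : Polynomial K, ∀ y : Matrix (Fin n) (Fin n) K,
    x * y = y * x → (x.map δ * y).trace = (Polynomial.aeval x q * y).trace := by
  obtain ⟨a, b, hab⟩ := hp
  obtain ⟨q, hq⟩ := tr_poly δ x p
  have h1 : Polynomial.aeval x p.derivative * Polynomial.aeval x b = 1 := by
    have := congrArg (Polynomial.aeval x) hab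
    rw [map_add, map_mul, map_mul, h0, mul_zero, zero_add, map_one] at this
    rw [← map_mul, mul_comm, map_mul]
    exact this
  refine ⟨- (q * b), fun y hy => ?_⟩
  have hb : Commute (Polynomial.aeval x b) x := by
    have : Commute (Polynomial.aeval x b) (Polynomial.aeval x (Polynomial.X : Polynomial K)) := by
      change _ * _ = _ * _
      rw [← map_mul, ← map_mul, mul_comm]
    rwa [Polynomial.aeval_X] at this
  have h2 := hq (Polynomial.aeval x b * y) (by
    rw [← mul_assoc, ← hb.eq, mul_assoc, hy, mul_assoc])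
  rw [h0] at h2
  have h3 : (0 : Matrix (Fin n) (Fin n) K).map δ = 0 := by ext; simp
  rw [h3, zero_mul, Matrix.trace_zero, mul_assoc, ← mul_assoc (Polynomial.aeval x p.derivative), h1,
    one_mul, ← mul_assoc, ← map_mul] at h2
  rw [map_neg, neg_mul, Matrix.trace_neg]
  linear_combination - h2

end mat

theorem toM_dL {k : Type u} [Field k] {s : Type v} [LieRing s] [LieAlgebra k s] {n : ℕ}
    (e : Basis (Fin n) k s) {K : Type u} [Field K] [Algebra k K] (δ : Derivation k K K)
    (x : K ⊗[k] s) :
    LinearMap.toMatrix (e.baseChange K) (e.baseChange K)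
      (LieAlgebra.ad K (K ⊗[k] s) (dL s δ x)) =
    (LinearMap.toMatrix (e.baseChange K) (e.baseChange K)
      (LieAlgebra.ad K (K ⊗[k] s) x)).map δ := by
  induction x with
  | zero => ext; simp
  | add x y hx hy => rw [map_add, map_add, map_add, hx, hy, map_add, map_add, map_add']
  | tmul a v =>
    have h1 : dL s δ (a ⊗ₜ[k] v) = δ a ⊗ₜ[k] v := rfl
    have h2 : ∀ c : K, LinearMap.toMatrix (e.baseChange K) (e.baseChange K)
      (LieAlgebra.ad K (K ⊗[k] s) (c ⊗ₜ[k] v)) =
        c • (LinearMap.toMatrix e e (LieAlgebra.ad k s v)).map (algebraMap k K) := by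
      intro c
      have := ad_toMatrix e (K := K) (fun _ : Fin 1 => v) (fun _ => c)
      simpa using this
    rw [h1, h2, h2]
    ext i j
    simp
    ring

theorem sb : S_SB.{u,v} := by
  intro k _ _ s _ _ _ _ K _ _ _ δ S N c hSN hS hN hSc hNc hc
  have hK : CharZero K := charZero_of_injective_algebraMap (algebraMap k K).injective
  let e := finBasis k s
  let T := LinearMap.toMatrixAlgEquiv (e.baseChange K)
  have hkf : ∀ x y : K ⊗[k] s, killingForm K (K ⊗[k] s) x y =
      (T (LieAlgebra.ad K _ x) * T (LieAlgebra.ad K _ y)).trace := by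
    intro x y
    rw [← map_mul, killingForm_apply_apply]
    exact (LinearMap.trace_eq_matrix_trace K (e.baseChange K) _)
  have hTd : ∀ x : K ⊗[k] s, T (LieAlgebra.ad K _ (dL s δ x)) =
      (T (LieAlgebra.ad K _ x)).map δ := fun x => toM_dL e δ x
  have hcomm : ∀ x y : K ⊗[k] s, ⁅x, y⁆ = 0 →
      T (LieAlgebra.ad K _ x) * T (LieAlgebra.ad K _ y) =
        T (LieAlgebra.ad K _ y) * T (LieAlgebra.ad K _ x) := by
    intro x y h
    have h1 : LieAlgebra.ad K (K ⊗[k] s) x * LieAlgebra.ad K (K ⊗[k] s) y =
        LieAlgebra.ad K (K ⊗[k] s) y * LieAlgebra.ad K (K ⊗[k] s) x := by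
      refine LinearMap.ext fun z => ?_
      rw [Module.End.mul_apply, Module.End.mul_apply, LieAlgebra.ad_apply, LieAlgebra.ad_apply,
        LieAlgebra.ad_apply, LieAlgebra.ad_apply, leibniz_lie, h, zero_lie, zero_add]
    rw [← map_mul T, ← map_mul T, h1]
  rw [map_add, map_add, LinearMap.add_apply]
  have hn : killingForm K (K ⊗[k] s) (dL s δ N) c = 0 := by
    rw [hkf, hTd]
    exact trace_der_mul (δ := δ) (by
      obtain ⟨m, hm⟩ := hN
      exact ⟨m, by rw [← map_pow, hm, map_zero]⟩) (hcomm N c hNc)
  have hs : killingForm K (K ⊗[k] s) (dL s δ S) c = 0 := by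
    obtain ⟨q, hq⟩ := tr_sep δ (T (LieAlgebra.ad K _ S)) (minpoly K (LieAlgebra.ad K (K ⊗[k] s) S))
      (PerfectField.separable_iff_squarefree.2 hS.minpoly_squarefree) (by
        have := Polynomial.aeval_algHom_apply T.toAlgHom (LieAlgebra.ad K (K ⊗[k] s) S)
          (minpoly K (LieAlgebra.ad K (K ⊗[k] s) S))
        rw [minpoly.aeval, map_zero] at this
        exact this)
    rw [hkf, hTd, hq _ (hcomm S c hSc)]
    set Q := Polynomial.aeval (T (LieAlgebra.ad K _ S)) q with hQ
    have hQc : ∀ a : K ⊗[k] s, ⁅S, a⁆ = 0 →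
        Commute Q (T (LieAlgebra.ad K _ a)) := by
      intro a ha
      rw [hQ, Polynomial.aeval_eq_sum_range]
      refine Commute.sum_left _ _ _ fun i _ => ?_
      exact ((show Commute (T (LieAlgebra.ad K _ S)) (T (LieAlgebra.ad K _ a)) from
        hcomm S a ha).pow_left i).smul_left _
    clear hq hn hSc hNc
    induction hc using Submodule.span_induction with
    | zero => simp
    | add x y _ _ hx hy => rw [map_add, map_add, mul_add, Matrix.trace_add, hx, hy, add_zero]
    | smul t x _ hx => rw [map_smul, map_smul, mul_smul_comm, Matrix.trace_smul, hx, smul_zero]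
    | mem z hz =>
      obtain ⟨a, b, ha, hb, rfl⟩ := hz
      have h1 : T (LieAlgebra.ad K (K ⊗[k] s) ⁅a, b⁆) =
          T (LieAlgebra.ad K _ a) * T (LieAlgebra.ad K _ b) -
            T (LieAlgebra.ad K _ b) * T (LieAlgebra.ad K _ a) := by
        rw [← map_mul T, ← map_mul T, ← map_sub T]
        congr 1
        refine LinearMap.ext fun z => ?_
        rw [LinearMap.sub_apply, Module.End.mul_apply, Module.End.mul_apply]
        simp only [LieAlgebra.ad_apply]
        rw [lie_lie]
      rw [h1, mul_sub, Matrix.trace_sub, ← mul_assoc, (hQc a ha).eq, mul_assoc,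
        Matrix.trace_mul_comm, mul_assoc, sub_self]
  rw [hs, hn, add_zero]

end Pool.Agent.TH999.J1850
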