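import Pool.Agent.TH28.FL.DatK

/-!
# FL3-G4: semicontinuity of the rank of `cform`
-/

set_option autoImplicit false

universe u v w

namespace Pool.Agent.TH999.J1852

open Module TensorProduct MvPolynomial Pool.Agent.TH28.FL

/-- linearly independent functionals form a surjective map -/
theorem pi_surjective {k : Type u} [Field k] {V : Type v} [AddCommGroup V] [Module k V] {n : ℕ}
    (φ : Fin n → Dual k V) (h : LinearIndependent k φ) : Function.Surjective (LinearMap.pi φ) := by
  rw [← LinearMap.range_eq_top]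
  by_contra hne
  obtain ⟨f, hf, hfr⟩ := Submodule.exists_le_ker_of_lt_top _ (lt_top_iff_ne_top.2 hne)
  apply hf
  have h1 : ∑ i, f (Pi.single i 1) • φ i = 0 := by
    ext x
    have h2 : f (LinearMap.pi φ x) = 0 := hfr ⟨x, rfl⟩
    have h3 : LinearMap.pi φ x = ∑ i, (φ i x) • (Pi.single i 1 : Fin n → k) := by
      ext j
      simp [Finset.sum_apply, Pi.single_apply]
    rw [h3, map_sum] at h2
    simp only [map_smul, smul_eq_mul] at h2
    simp only [LinearMap.sum_apply, LinearMap.smul_apply, smul_eq_mul, LinearMap.zero_apply]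
    rw [← h2]
    exact Finset.sum_congr rfl fun i _ => mul_comm _ _
  have h4 := Fintype.linearIndependent_iff.1 h _ h1
  apply LinearMap.ext
  intro z
  have h5 : z = ∑ i, z i • (Pi.single i 1 : Fin n → k) := by
    ext j
    simp [Finset.sum_apply, Pi.single_apply]
  rw [h5, map_sum]
  simp [h4]

theorem exists_li {k : Type u} [Field k] {V : Type v} {W : Type w} [AddCommGroup V] [Module k V]
    [AddCommGroup W] [Module k W] [FiniteDimensional k V] (f : V →ₗ[k] W) :
    ∃ a : Fin (finrank k (LinearMap.range f)) → V, LinearIndependent k (fun i => f (a i)) := by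
  let e := finBasis k (LinearMap.range f)
  have ha : ∀ i, ∃ a, f a = e i := fun i => (e i).2
  choose a ha using ha
  refine ⟨a, ?_⟩
  have := e.linearIndependent.map' (LinearMap.range f).subtype (Submodule.ker_subtype _)
  have h2 : (fun i => f (a i)) = (LinearMap.range f).subtype ∘ e := by
    funext i
    simp [ha]
  rw [h2]
  exact this

theorem le_finrank_range {k : Type u} [Field k] {V : Type v} {W : Type w} [AddCommGroup V] [Module k V]
    [AddCommGroup W] [Module k W] [FiniteDimensional k V] (f : V →ₗ[k] W) (n : ℕ) (a : Fin n → V)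
    (h : LinearIndependent k (fun i => f (a i))) : n ≤ finrank k (LinearMap.range f) := by
  have hl : LinearIndependent k (fun i => (⟨f (a i), ⟨a i, rfl⟩⟩ : LinearMap.range f)) := by
    refine LinearIndependent.of_comp (LinearMap.range f).subtype ?_
    exact h
  simpa using hl.fintype_card_le_finrank

/-- a form of rank `n` has a nonzero minor of size `n` -/
theorem exists_minor {k : Type u} [Field k] {V : Type v} [AddCommGroup V] [Module k V]
    [FiniteDimensional k V] (B : V →ₗ[k] V →ₗ[k] k) (n : ℕ)
    (hn : n = finrank k (LinearMap.range B)) :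
    ∃ a b : Fin n → V, (Matrix.of fun i j => B (a i) (b j)).det ≠ 0 := by
  subst hn
  obtain ⟨a, hl⟩ := exists_li (W := Dual k V) B
  refine ⟨a, ?_⟩
  obtain hs := pi_surjective _ hl
  have hb : ∀ j, ∃ b, LinearMap.pi (fun i => B (a i)) b =
    (Pi.single j 1 : Fin (finrank k (LinearMap.range B)) → k) := fun j => hs _
  choose b hb using hb
  refine ⟨b, ?_⟩
  have : (Matrix.of fun i j => B (a i) (b j)) = 1 := by
    ext i j
    have h1 := congrFun (hb j) i
    simp only [LinearMap.pi_apply] at h1
    rw [Matrix.of_apply, h1, Matrix.one_apply, Pi.single_apply]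
  rw [this, Matrix.det_one]
  exact one_ne_zero

/-- a nonzero minor bounds the rank from below -/
theorem le_finrank {k : Type u} [Field k] {V : Type v} [AddCommGroup V] [Module k V]
    [FiniteDimensional k V] (B : V →ₗ[k] V →ₗ[k] k) (n : ℕ) (a b : Fin n → V)
    (h : (Matrix.of fun i j => B (a i) (b j)).det ≠ 0) : n ≤ finrank k (LinearMap.range B) := by
  refine le_finrank_range (W := Dual k V) B n a ?_
  rw [Fintype.linearIndependent_iff]
  intro c hc
  have h1 : Matrix.vecMul c (Matrix.of fun i j => B (a i) (b j)) = 0 := by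
    ext j
    have h2 := congrArg (fun z : Dual k V => z (b j)) hc
    simpa [Matrix.vecMul, dotProduct] using h2
  have h3 := Matrix.eq_zero_of_vecMul_eq_zero h h1
  exact fun i => congrFun h3 i

theorem kf_tmul {k : Type u} [Field k] {s : Type v} [LieRing s] [LieAlgebra k s]
    [FiniteDimensional k s] {K : Type w} [Field K] [Algebra k K] (a b : K) (x y : s) :
    killingForm K (K ⊗[k] s) (a ⊗ₜ[k] x) (b ⊗ₜ[k] y) =
      a * b * algebraMap k K (killingForm k s x y) := by
  rw [killingForm, LieModule.traceForm_baseChange]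
  simp [Algebra.algebraMap_eq_smul_one]

theorem g4 : S_G4.{u,v} := by
  intro k _ _ s _ _ _ r p v K _ _ X' hX α y
  obtain ⟨n, hn⟩ : ∃ n, n = finrank k (LinearMap.range (cform k r α (∑ i, y i • v i))) := ⟨_, rfl⟩
  obtain ⟨a, b, hab⟩ := exists_minor (cform k r α (∑ i, y i • v i)) n hn
  rw [← hn]
  -- the polynomial matrix
  let N : Matrix (Fin n) (Fin n) (MvPolynomial (Fin p) k) := Matrix.of fun i j =>
    C (killingForm k s α ⁅((a i).1 : s), ((b j).1 : s)⁆) +
      ∑ l, X l * C (killingForm k s (v l) (⁅((a i).1 : s), (b j).2⁆ + ⁅(a i).2, ((b j).1 : s)⁆))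
  have hNy : (Matrix.of fun i j => cform k r α (∑ i, y i • v i) (a i) (b j)) =
      N.map (aeval y : MvPolynomial (Fin p) k →ₐ[k] k) := by
    ext i j
    simp [N, cform, Matrix.of_apply]
  have hdet : N.det ≠ 0 := by
    intro h0
    apply hab
    rw [hNy]
    have := (AlgHom.map_det (aeval y : MvPolynomial (Fin p) k →ₐ[k] k) N)
    rw [h0, map_zero] at this
    exact this.symm
  let ι : (r × s) → (rK K r × (K ⊗[k] s)) := fun c =>
    (⟨1 ⊗ₜ[k] (c.1 : s), Submodule.tmul_mem_baseChange_of_mem _ c.1.2⟩, 1 ⊗ₜ[k] c.2)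
  refine le_finrank _ n (fun i => ι (a i)) (fun j => ι (b j)) ?_
  have hNX : (Matrix.of fun i j => cform K (rK K r) (1 ⊗ₜ[k] α) (∑ i, X' i ⊗ₜ[k] v i) (ι (a i))
      (ι (b j))) = N.map (aeval X' : MvPolynomial (Fin p) k →ₐ[k] K) := by
    ext i j
    simp only [N, cform, Matrix.of_apply, ι, LinearMap.mk₂_apply, Matrix.map_apply, map_add,
      map_sum, map_mul, aeval_X, aeval_C]
    simp only [LieAlgebra.ExtendScalars.bracket_tmul, one_mul, mul_one, LinearMap.sum_apply,
      kf_tmul]
    simp only [mul_add, Finset.sum_add_distrib]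
  rw [hNX]
  have h1 := (AlgHom.map_det (aeval X' : MvPolynomial (Fin p) k →ₐ[k] K) N)
  intro h2
  apply hdet
  have := (injective_iff_map_eq_zero _).1 hX
  exact this _ (h1.trans h2)

end Pool.Agent.TH999.J1852
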