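import Pool.Agent.TH28.FL.DatK
import Pool.Agent.TH989.J1109
import Pool.Agent.TH999.J1852

/-!
# FL3-H1: rank of `ad y` over field extensions
-/

set_option autoImplicit false

universe u v w

namespace Pool.Agent.TH999.J1854

open Module TensorProduct MvPolynomial Pool.Agent.TH28.FL Pool.Agent.TH999.J1852

theorem nondeg_bc {k : Type u} [Field k] {s : Type v} [LieRing s] [LieAlgebra k s]
    [FiniteDimensional k s] [LieAlgebra.IsKilling k s] {K : Type w} [Field K] [Algebra k K]
    (z : K ⊗[k] s) (h : ∀ x : s, killingForm K (K ⊗[k] s) z (1 ⊗ₜ[k] x) = 0) : z = 0 := by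
  classical
  let e := finBasis k s
  have hz : z = ∑ i, (e.baseChange K).repr z i • (1 ⊗ₜ[k] e i : K ⊗[k] s) := by
    conv_lhs => rw [← (e.baseChange K).sum_repr z]
    simp
  have hc : ∀ j, (e.baseChange K).repr z j = 0 := by
    intro j
    let e' := LinearMap.BilinForm.dualBasis (killingForm k s)
      (LieAlgebra.IsKilling.killingForm_nondegenerate k s) e
    have h1 := h (e' j)
    rw [hz] at h1
    simp only [map_sum, map_smul, LinearMap.sum_apply, LinearMap.smul_apply, kf_tmul, one_mul,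
      smul_eq_mul] at h1
    have h2 : ∀ i, killingForm k s (e i) (e' j) = if i = j then 1 else 0 := by
      intro i
      rw [kf_comm]
      exact LinearMap.BilinForm.apply_dualBasis_left _ _ _ _
    simpa [h2] using h1
  rw [hz]
  simp [hc]

theorem h1 : S_H1.{u,v} := by
  intro k _ _ g s _ _ _ _ _ _ N b π hπ K _ _ y
  classical
  let ξ : Fin N → K := fun i => killingForm K (K ⊗[k] s) y (1 ⊗ₜ[k] π (b i))
  have hrk := Pool.Agent.TH989.J1109.rk k K g N b (lieB k g) ξ
  refine le_trans (Nat.add_le_add_right ?_ _) hrk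
  have hlin : ∀ z : g, aeval ξ (lin b z) = killingForm K (K ⊗[k] s) y (1 ⊗ₜ[k] π z) := by
    intro z
    conv_lhs => rw [← b.sum_repr z]
    conv_rhs => rw [← b.sum_repr z]
    simp only [map_sum, map_smul, tmul_sum, tmul_smul]
    refine Finset.sum_congr rfl fun i _ => ?_
    rw [lin, Basis.constr_basis, aeval_X]
    rw [← algebraMap_smul K (b.repr z i) (1 ⊗ₜ[k] π (b i) : K ⊗[k] s), map_smul, algebraMap_smul]
  let U : (Fin N → K) →ₗ[K] (K ⊗[k] s) :=
    ∑ i, (LinearMap.proj i : (Fin N → K) →ₗ[K] K).smulRight (1 ⊗ₜ[k] π (b i))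
  let T : (K ⊗[k] s) →ₗ[K] (Fin N → K) :=
    LinearMap.pi fun j => (killingForm K (K ⊗[k] s)).flip (1 ⊗ₜ[k] π (b j))
  have hUs : ∀ i, U (Pi.single i 1) = 1 ⊗ₜ[k] π (b i) := by
    intro i
    simp only [U, LinearMap.sum_apply, LinearMap.smulRight_apply, LinearMap.proj_apply]
    rw [Finset.sum_eq_single i]
    · simp
    · intro j _ hj
      rw [Pi.single_eq_of_ne hj, zero_smul]
    · intro h
      exact absurd (Finset.mem_univ _) h
  have hU1 : ∀ a : g, (1 ⊗ₜ[k] π a : K ⊗[k] s) ∈ LinearMap.range U := by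
    intro a
    rw [← b.sum_repr a]
    simp only [map_sum, map_smul, tmul_sum, tmul_smul]
    refine Submodule.sum_mem _ fun i _ => ?_
    rw [← algebraMap_smul K (b.repr a i)]
    exact Submodule.smul_mem _ _ ⟨_, hUs i⟩
  have hU : LinearMap.range U = ⊤ := by
    rw [eq_top_iff]
    intro z _
    induction z with
    | zero => exact Submodule.zero_mem _
    | add x y hx hy => exact Submodule.add_mem _ (hx trivial) (hy trivial)
    | tmul c x =>
      obtain ⟨a, rfl⟩ := hπ x
      have : (c ⊗ₜ[k] π a : K ⊗[k] s) = c • (1 ⊗ₜ[k] π a) := by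
        rw [smul_tmul', smul_eq_mul, mul_one]
      rw [this]
      exact Submodule.smul_mem _ _ (hU1 a)
  have hT : Function.Injective T := by
    rw [injective_iff_map_eq_zero]
    intro z hz
    have hz' : ∀ j, killingForm K (K ⊗[k] s) z (1 ⊗ₜ[k] π (b j)) = 0 := fun j => congrFun hz j
    apply nondeg_bc z
    intro x
    obtain ⟨a, rfl⟩ := hπ x
    rw [← b.sum_repr a]
    simp only [map_sum, map_smul, tmul_sum, tmul_smul]
    refine Finset.sum_eq_zero fun i _ => ?_
    rw [← algebraMap_smul K (b.repr a i), map_smul, hz', smul_zero]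
  have hM : (fmat b (lieB k g) ξ).transpose.mulVecLin =
      T ∘ₗ (LieAlgebra.ad K (K ⊗[k] s) y) ∘ₗ U := by
    apply LinearMap.pi_ext'
    intro i
    apply LinearMap.ext_ring
    funext j
    simp only [LinearMap.comp_apply, LinearMap.coe_single]
    rw [hUs]
    change _ = killingForm K (K ⊗[k] s) ⁅y, 1 ⊗ₜ[k] π (b i)⁆ (1 ⊗ₜ[k] π (b j))
    rw [kf_lie, LieAlgebra.ExtendScalars.bracket_tmul, one_mul, ← LieHom.map_lie, ← hlin]
    simp [fmat, lieB]
  rw [← Matrix.rank_transpose, Matrix.rank, hM, LinearMap.range_comp, LinearMap.range_comp, hU,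
    Submodule.map_top]
  exact (LinearEquiv.finrank_eq (Submodule.equivMapOfInjective T hT _)).le

end Pool.Agent.TH999.J1854
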