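import Pool.Agent.TH84.UA.Plan

set_option autoImplicit false

namespace Pool.Agent.TH999.UA_BINOM

open Finset Filter
open scoped Classical
open Pool.Agent.TH84.UA

theorem sum_exp (n : ℕ) (t : ℝ) :
    ∑ A : Finset (Fin n), Real.exp (t * ((n : ℝ) - 2 * A.card)) =
      (Real.exp (-t) + Real.exp t) ^ n := by
  have h := Fintype.sum_pow_mul_eq_add_pow (Fin n) (Real.exp (-t)) (Real.exp t)
  rw [Fintype.card_fin] at h
  rw [← h]
  refine sum_congr rfl fun A _ => ?_
  have hA : A.card ≤ n := by simpa using card_le_univ A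
  rw [← Real.exp_nat_mul, ← Real.exp_nat_mul, ← Real.exp_add, Nat.cast_sub hA]
  congr 1
  ring

theorem sum_exp_le (n : ℕ) (t : ℝ) :
    ∑ A : Finset (Fin n), Real.exp (t * ((n : ℝ) - 2 * A.card)) ≤
      2 ^ n * Real.exp (n * t ^ 2 / 2) := by
  rw [sum_exp]
  have h1 : Real.exp (-t) + Real.exp t = 2 * Real.cosh t := by
    rw [Real.cosh_eq]
    ring
  have h2 := Real.cosh_le_exp_half_sq t
  have h0 : 0 < Real.cosh t := Real.cosh_pos t
  rw [h1, mul_pow]
  refine mul_le_mul_of_nonneg_left ?_ (by positivity)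
  calc Real.cosh t ^ n ≤ Real.exp (t ^ 2 / 2) ^ n := pow_le_pow_left₀ h0.le h2 n
    _ = Real.exp (n * t ^ 2 / 2) := by
      rw [← Real.exp_nat_mul]
      congr 1
      ring

theorem t_TAIL : P_TAIL := by
  intro n R hn hR
  have hn0 : (0 : ℝ) < n := by exact_mod_cast hn
  obtain ⟨t, ht⟩ : ∃ t : ℝ, t = 2 * R / n := ⟨_, rfl⟩
  have ht0 : 0 ≤ t := by rw [ht]; positivity
  have h1 : ∀ A ∈ (univ.filter (fun A : Finset (Fin n) =>
      ¬ (n / 2 - R ≤ A.card ∧ A.card ≤ n / 2 + R))), Real.exp (2 * R * t) ≤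
      Real.exp (t * ((n : ℝ) - 2 * A.card)) + Real.exp ((-t) * ((n : ℝ) - 2 * A.card)) := by
    intro A hA
    have hA' := (mem_filter.1 hA).2
    have p1 := Real.exp_pos (t * ((n : ℝ) - 2 * A.card))
    have p2 := Real.exp_pos ((-t) * ((n : ℝ) - 2 * A.card))
    rw [not_and_or, not_le, not_le] at hA'
    rcases hA' with h | h
    · have h3 : 2 * A.card + 2 * R ≤ n := by omega
      have h4 : 2 * (A.card : ℝ) + 2 * R ≤ n := by exact_mod_cast h3
      have h5 : Real.exp (2 * R * t) ≤ Real.exp (t * ((n : ℝ) - 2 * A.card)) := by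
        rw [Real.exp_le_exp]
        nlinarith
      linarith
    · have h3 : n + 2 * R ≤ 2 * A.card := by omega
      have h4 : (n : ℝ) + 2 * R ≤ 2 * A.card := by exact_mod_cast h3
      have h5 : Real.exp (2 * R * t) ≤ Real.exp ((-t) * ((n : ℝ) - 2 * A.card)) := by
        rw [Real.exp_le_exp]
        nlinarith
      linarith
  have h2 : ((univ.filter (fun A : Finset (Fin n) =>
      ¬ (n / 2 - R ≤ A.card ∧ A.card ≤ n / 2 + R))).card : ℝ) * Real.exp (2 * R * t) ≤
      2 * (2 ^ n * Real.exp (n * t ^ 2 / 2)) := by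
    calc ((univ.filter (fun A : Finset (Fin n) =>
        ¬ (n / 2 - R ≤ A.card ∧ A.card ≤ n / 2 + R))).card : ℝ) * Real.exp (2 * R * t)
        = ∑ A ∈ (univ.filter (fun A : Finset (Fin n) =>
          ¬ (n / 2 - R ≤ A.card ∧ A.card ≤ n / 2 + R))), Real.exp (2 * R * t) := by
          rw [sum_const, nsmul_eq_mul]
      _ ≤ ∑ A ∈ (univ.filter (fun A : Finset (Fin n) =>
          ¬ (n / 2 - R ≤ A.card ∧ A.card ≤ n / 2 + R))),
          (Real.exp (t * ((n : ℝ) - 2 * A.card)) + Real.exp ((-t) * ((n : ℝ) - 2 * A.card))) :=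
          sum_le_sum h1
      _ ≤ ∑ A : Finset (Fin n),
          (Real.exp (t * ((n : ℝ) - 2 * A.card)) + Real.exp ((-t) * ((n : ℝ) - 2 * A.card))) :=
          sum_le_sum_of_subset_of_nonneg (filter_subset _ _) fun _ _ _ => by positivity
      _ = ∑ A : Finset (Fin n), Real.exp (t * ((n : ℝ) - 2 * A.card)) +
          ∑ A : Finset (Fin n), Real.exp ((-t) * ((n : ℝ) - 2 * A.card)) := sum_add_distrib
      _ ≤ 2 ^ n * Real.exp (n * t ^ 2 / 2) + 2 ^ n * Real.exp (n * (-t) ^ 2 / 2) :=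
          add_le_add (sum_exp_le n t) (sum_exp_le n (-t))
      _ = 2 * (2 ^ n * Real.exp (n * t ^ 2 / 2)) := by
          rw [neg_sq]
          ring
  have h3 : Real.exp (n * t ^ 2 / 2) = Real.exp (-(2 * (R : ℝ) ^ 2 / n)) * Real.exp (2 * R * t) := by
    rw [← Real.exp_add]
    congr 1
    rw [ht]
    field_simp
    ring
  rw [h3] at h2
  have h4 : 0 < Real.exp (2 * R * t) := Real.exp_pos _
  have h5 : 2 * (2 ^ n * (Real.exp (-(2 * (R : ℝ) ^ 2 / n)) * Real.exp (2 * R * t))) =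
      (2 * 2 ^ n * Real.exp (-(2 * (R : ℝ) ^ 2 / n))) * Real.exp (2 * R * t) := by ring
  rw [h5] at h2
  exact le_of_mul_le_mul_right h2 h4

theorem cb_bound (k : ℕ) (hk : 1 ≤ k) : 16 ^ k ≤ 4 * k * k.centralBinom ^ 2 := by
  induction k, hk using Nat.le_induction with
  | base => simp [Nat.centralBinom, Nat.choose]
  | succ k hk ih =>
    have h := Nat.succ_mul_centralBinom_succ k
    -- (k+1) cb(k+1) = 2 (2k+1) cb k
    have hpos : 0 < k + 1 := Nat.succ_pos k
    have h2 : (k + 1) * (4 * (k + 1) * (k + 1).centralBinom ^ 2) =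
        4 * (2 * (2 * k + 1) * k.centralBinom) ^ 2 := by
      rw [← h]
      ring
    have h3 : (k + 1) * 16 ^ (k + 1) ≤ (k + 1) * (4 * (k + 1) * (k + 1).centralBinom ^ 2) := by
      rw [h2]
      calc (k + 1) * 16 ^ (k + 1) = 16 * (k + 1) * 16 ^ k := by ring
        _ ≤ 16 * (k + 1) * (4 * k * k.centralBinom ^ 2) := Nat.mul_le_mul_left _ ih
        _ = (4 * k * (k + 1)) * (16 * k.centralBinom ^ 2) := by ring
        _ ≤ (2 * k + 1) ^ 2 * (16 * k.centralBinom ^ 2) := by
          apply Nat.mul_le_mul_right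
          nlinarith
        _ = 4 * (2 * (2 * k + 1) * k.centralBinom) ^ 2 := by ring
    exact Nat.le_of_mul_le_mul_left h3 hpos

theorem cb_real (k : ℕ) (hk : 1 ≤ k) : (4 : ℝ) ^ k ≤ 2 * Real.sqrt k * (k.centralBinom : ℝ) := by
  have h := cb_bound k hk
  have h1 : ((4 : ℝ) ^ k) ^ 2 ≤ (2 * Real.sqrt k * (k.centralBinom : ℝ)) ^ 2 := by
    have h2 : (2 * Real.sqrt k * (k.centralBinom : ℝ)) ^ 2 = 4 * k * (k.centralBinom : ℝ) ^ 2 := by
      rw [mul_pow, mul_pow, Real.sq_sqrt (Nat.cast_nonneg k)]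
      norm_num
    rw [h2, ← pow_mul, mul_comm k 2, pow_mul]
    norm_num
    exact_mod_cast h
  exact (pow_le_pow_iff_left₀ (by positivity) (by positivity) two_ne_zero).1 h1

theorem t_MID : P_MID := by
  intro n hn
  rcases Nat.even_or_odd' n with ⟨k, hk | hk⟩
  · have hk1 : 1 ≤ k := by omega
    have h1 : n / 2 = k := by omega
    rw [h1, hk]
    have h2 := cb_real k hk1
    rw [Nat.centralBinom] at h2
    rw [pow_mul]
    have h3 : Real.sqrt k ≤ Real.sqrt ((2 * k : ℕ) : ℝ) := by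
      apply Real.sqrt_le_sqrt
      exact_mod_cast (by omega : k ≤ 2 * k)
    norm_num
    norm_num at h3
    refine h2.trans ?_
    gcongr
  · have h1 : n / 2 = k := by omega
    rw [h1, hk]
    have h2 := cb_real (k + 1) (by omega)
    have h3 : (k + 1).centralBinom = 2 * (2 * k + 1).choose k := by
      rw [Nat.centralBinom, show 2 * (k + 1) = (2 * k + 1) + 1 by ring, Nat.choose_succ_succ,
        Nat.choose_symm_half]
      ring
    rw [h3] at h2
    push_cast at h2 ⊢
    have h4 : Real.sqrt ((k : ℝ) + 1) ≤ Real.sqrt (2 * (k : ℝ) + 1) := by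
      apply Real.sqrt_le_sqrt
      have : (0 : ℝ) ≤ k := Nat.cast_nonneg k
      linarith
    have h5 : (4 : ℝ) ^ (k + 1) = 2 * 2 ^ (2 * k + 1) := by
      rw [show (4 : ℝ) = 2 ^ 2 by norm_num, ← pow_mul]
      ring
    rw [h5] at h2
    have h6 : (0 : ℝ) ≤ ((2 * k + 1).choose k : ℝ) := Nat.cast_nonneg _
    have h7 := mul_le_mul_of_nonneg_right h4 h6
    linarith

theorem step (n m s j : ℕ) (hm : m = n / 2) (hj : j + 1 ≤ s + 1) (hs : s + 1 ≤ m) :
    (n.choose (m + (j + 1)) : ℝ) ≤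
      Real.exp (-(2 * j / ((m : ℝ) + s + 1))) * (n.choose (m + j) : ℝ) := by
  have h1 := Nat.choose_succ_right_eq n (m + j)
  have h2 : (n.choose (m + (j + 1)) : ℝ) * ((m : ℝ) + j + 1) =
      (n.choose (m + j) : ℝ) * ((n - (m + j) : ℕ) : ℝ) := by
    rw [← add_assoc]
    exact_mod_cast h1
  have h3 : ((n - (m + j) : ℕ) : ℝ) ≤ (m : ℝ) + 1 - j := by
    have h4 : (n - (m + j)) + j ≤ m + 1 := by omega
    have h5 : ((n - (m + j) : ℕ) : ℝ) + j ≤ m + 1 := by exact_mod_cast h4
    linarith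
  have hpos : (0 : ℝ) < (m : ℝ) + j + 1 := by positivity
  have h6 : (m : ℝ) + 1 - j ≤ Real.exp (-(2 * j / ((m : ℝ) + s + 1))) * ((m : ℝ) + j + 1) := by
    have h7 : 1 - 2 * (j : ℝ) / ((m : ℝ) + j + 1) ≤ Real.exp (-(2 * j / ((m : ℝ) + s + 1))) := by
      have h8 : -(2 * (j : ℝ) / ((m : ℝ) + j + 1)) ≤ -(2 * j / ((m : ℝ) + s + 1)) := by
        rw [neg_le_neg_iff]
        apply div_le_div_of_nonneg_left (by positivity) hpos
        have : (j : ℝ) ≤ s := by exact_mod_cast (by omega : j ≤ s)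
        linarith
      have h9 := Real.add_one_le_exp (-(2 * (j : ℝ) / ((m : ℝ) + j + 1)))
      have h10 := Real.exp_le_exp.2 h8
      linarith
    have h11 := mul_le_mul_of_nonneg_right h7 hpos.le
    have h12 : (1 - 2 * (j : ℝ) / ((m : ℝ) + j + 1)) * ((m : ℝ) + j + 1) = (m : ℝ) + 1 - j := by
      field_simp
      ring
    linarith
  have h13 : (n.choose (m + (j + 1)) : ℝ) * ((m : ℝ) + j + 1) ≤
      (Real.exp (-(2 * j / ((m : ℝ) + s + 1))) * (n.choose (m + j) : ℝ)) * ((m : ℝ) + j + 1) := by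
    rw [h2]
    calc (n.choose (m + j) : ℝ) * ((n - (m + j) : ℕ) : ℝ)
        ≤ (n.choose (m + j) : ℝ) *
          (Real.exp (-(2 * j / ((m : ℝ) + s + 1))) * ((m : ℝ) + j + 1)) :=
          mul_le_mul_of_nonneg_left (h3.trans h6) (Nat.cast_nonneg _)
      _ = _ := by ring
  exact le_of_mul_le_mul_right h13 hpos

theorem iter (n m s : ℕ) (hm : m = n / 2) (hs : s + 1 ≤ m) (j : ℕ) (hj : j ≤ s + 1) :
    (n.choose (m + j) : ℝ) ≤
      Real.exp (-((j : ℝ) * (j - 1) / ((m : ℝ) + s + 1))) * (n.choose m : ℝ) := by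
  induction j with
  | zero => simp
  | succ j ih =>
    have h1 := step n m s j hm hj hs
    have h2 := ih (by omega)
    refine h1.trans ((mul_le_mul_of_nonneg_left h2 (Real.exp_pos _).le).trans (le_of_eq ?_))
    rw [← mul_assoc, ← Real.exp_add]
    congr 2
    push_cast
    ring

theorem choose_anti (n a b : ℕ) (ha : n / 2 ≤ a) (hab : a ≤ b) : n.choose b ≤ n.choose a := by
  induction b, hab using Nat.le_induction with
  | base => exact le_rfl
  | succ b hb ih =>
    refine le_trans ?_ ih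
    have h1 := Nat.choose_succ_right_eq n b
    have h2 : n.choose (b + 1) * (b + 1) ≤ n.choose b * (b + 1) := by
      rw [h1]
      apply Nat.mul_le_mul_left
      omega
    exact Nat.le_of_mul_le_mul_right h2 (Nat.succ_pos b)

theorem t_THETA : P_THETA := by
  intro n s k hn hs hk
  obtain ⟨m, hm⟩ : ∃ m, m = n / 2 := ⟨_, rfl⟩
  rw [← hm] at hs hk ⊢
  have hn0 : (0 : ℝ) < n := by exact_mod_cast hn
  -- the value at m + s + 1
  have h1 : (n.choose (m + (s + 1)) : ℝ) ≤ Real.exp (-((s : ℝ) ^ 2 / n)) * (n.choose m : ℝ) := by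
    refine (iter n m s hm hs (s + 1) le_rfl).trans ?_
    apply mul_le_mul_of_nonneg_right _ (Nat.cast_nonneg _)
    rw [Real.exp_le_exp, neg_le_neg_iff]
    push_cast
    rw [add_sub_cancel_right]
    have h2 : (0 : ℝ) < (m : ℝ) + s + 1 := by positivity
    rw [div_le_div_iff₀ hn0 h2]
    have h3 : (m : ℝ) + s + 1 ≤ n := by exact_mod_cast (by omega : m + s + 1 ≤ n)
    have h4 : (0 : ℝ) ≤ s := Nat.cast_nonneg s
    nlinarith [mul_le_mul_of_nonneg_left h3 (sq_nonneg (s : ℝ))]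
  rw [not_and_or, not_le, not_le] at hk
  rcases hk with hk | hk
  · have h2 : n.choose k = n.choose (n - k) := (Nat.choose_symm (by omega)).symm
    have h3 : n.choose (n - k) ≤ n.choose (m + (s + 1)) :=
      choose_anti n (m + (s + 1)) (n - k) (by omega) (by omega)
    rw [h2]
    exact le_trans (by exact_mod_cast h3) h1
  · have h3 : n.choose k ≤ n.choose (m + (s + 1)) :=
      choose_anti n (m + (s + 1)) k (by omega) (by omega)
    exact le_trans (by exact_mod_cast h3) h1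

theorem t_NUM : P_NUM := by
  intro N s x hx hx1
  have h := Fintype.sum_pow_mul_eq_add_pow (Fin N) x 1
  rw [Fintype.card_fin] at h
  simp only [one_pow, mul_one] at h
  have h1 : ((univ.filter (fun S : Finset (Fin N) => S.card ≤ s)).card : ℝ) * x ^ s ≤
      (x + 1) ^ N := by
    rw [← h]
    calc ((univ.filter (fun S : Finset (Fin N) => S.card ≤ s)).card : ℝ) * x ^ s
        = ∑ S ∈ univ.filter (fun S : Finset (Fin N) => S.card ≤ s), x ^ s := by
          rw [sum_const, nsmul_eq_mul]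
      _ ≤ ∑ S ∈ univ.filter (fun S : Finset (Fin N) => S.card ≤ s), x ^ S.card := by
          refine sum_le_sum fun S hS => ?_
          exact pow_le_pow_of_le_one hx.le hx1 (mem_filter.1 hS).2
      _ ≤ ∑ S : Finset (Fin N), x ^ S.card :=
          sum_le_sum_of_subset_of_nonneg (filter_subset _ _) fun _ _ _ => by positivity
  have h2 : (x + 1) ^ N ≤ Real.exp (x * N) := by
    calc (x + 1) ^ N ≤ Real.exp x ^ N := pow_le_pow_left₀ (by positivity) (Real.add_one_le_exp x) N
      _ = Real.exp (x * N) := by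
        rw [← Real.exp_nat_mul]
        congr 1
        ring
  have h3 : Real.exp (s * Real.log (1 / x) + x * N) * x ^ s = Real.exp (x * N) := by
    have h4 : x ^ s = Real.exp (s * Real.log x) := by
      rw [mul_comm, Real.exp_mul, Real.exp_log hx, Real.rpow_natCast]
    rw [h4, ← Real.exp_add, one_div, Real.log_inv]
    congr 1
    ring
  have h5 : 0 < x ^ s := by positivity
  refine le_of_mul_le_mul_right ?_ h5
  rw [h3]
  exact h1.trans h2

end Pool.Agent.TH999.UA_BINOM
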