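import Pool.Agent.TH981.SD.Stm

set_option autoImplicit false

open Pool.Agent.TH981.SD
open Finset Set Filter
open scoped BigOperators Topology Classical

namespace Pool.Agent.TH999.J2277

theorem card_PEs {j n : ℕ} (J : SimpleGraph (Fin j)) (G : SimpleGraph (Fin n)) :
    (PEs J G).card ≤ (n + 1) ^ j := by
  refine (Finset.card_le_univ _).trans ?_
  simp [Fintype.card_pi, Fintype.card_option]

theorem add_le_pow (D a b : ℝ) (hD : 3 ≤ D) (q : ℕ) (hq : 1 ≤ q) (ha : a ≤ D ^ (q - 1))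
    (hb : b ≤ D ^ (q - 1)) : a + b ≤ D ^ q := by
  have r3 : D ^ q = D * D ^ (q - 1) := by
    rw [← pow_succ']; congr 1; omega
  have r4 : 0 < D ^ (q - 1) := by positivity
  rw [r3]; nlinarith

theorem ubd (a b c x y : ℝ) (h : a ≤ b) (hb : b = c * x) (h2 : c ≤ y) (hx : 0 ≤ x) : a ≤ y * x := by
  rw [hb] at h
  exact h.trans (mul_le_mul_of_nonneg_right h2 hx)

set_option maxHeartbeats 4000000 in
theorem l3b (h1 : S_CB) (h2 : S_VV) (h3 : S_EB) (h4 : S_CNT) (h5 : S_WTX) (h6 : S_XB) (h7 : S_UC)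
    (h8 : S_L3A) (h9 : S_YF) (h10 : S_TM) : S_L3B := by
  intro η hη α e0 ep e1 N j hP he1
  obtain ⟨K1, hK1⟩ := h1 α e0 ep e1 N j hP he1
  obtain ⟨K2, hK2⟩ := h2 α e0 ep e1 N j hP he1
  obtain ⟨K3, hK3⟩ := h3 α e0 ep e1 N j hP he1
  obtain ⟨K5, hK5⟩ := h5 α e0 ep e1 N j hP he1
  obtain ⟨K6, hK6⟩ := h6 α e0 ep e1 N j hP he1
  obtain ⟨K8, hK8⟩ := h8 (6 * N ^ 2 + 11 * N + 10) α e0 ep e1 N j hP he1
  refine ⟨max (max (max K1 K2) (max K3 K5)) (max (max K6 K8) (1 / η)), ?_⟩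
  intro s ha h0 hp hN h1' hK hF J hJ ds hds G hG τ hτ0 hτ
  have hk1 : K1 ≤ s.K := le_trans (by simp) hK
  have hk2 : K2 ≤ s.K := le_trans (by simp) hK
  have hk3 : K3 ≤ s.K := le_trans (by simp) hK
  have hk5 : K5 ≤ s.K := le_trans (by simp) hK
  have hk6 : K6 ≤ s.K := le_trans (by simp) hK
  have hk8 : K8 ≤ s.K := le_trans (by simp) hK
  have hkη : 1 / η ≤ s.K := le_trans (by simp) hK
  have f1 := hK1 s ha h0 hp hN h1' hk1 hF
  have f2 := hK2 s ha h0 hp hN h1' hk2 hF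
  have f3 := hK3 s ha h0 hp hN h1' hk3 hF
  have f5 := hK5 s ha h0 hp hN h1' hk5 hF J G hJ hG
  have f6 := hK6 s ha h0 hp hN h1' hk6 hF J G hJ hG
  have f8 := (hK8 s ha h0 hp hN h1' hk8 hF J hJ ds hds).2
  subst hN
  clear hK1 hK2 hK3 hK5 hK6 hK8 hk1 hk2 hk3 hk5 hk6 hk8 hK
  obtain ⟨hND, -⟩ := f1
  obtain ⟨-, f2, -⟩ := f2
  obtain ⟨f3a, f3b, -⟩ := f3
  have hpar := hF.par
  have hN3 : (3:ℝ) ≤ s.N := by exact_mod_cast hpar.N3
  have hD3 : (3:ℝ) ≤ s.D := hN3.trans hND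
  have hD0 : (0:ℝ) < s.D := by linarith
  have hD1 : (1:ℝ) ≤ s.D := by linarith
  have hjN : j ≤ s.N := hpar.jN
  -- positivity of V
  have hVp : ∀ i t, 0 ≤ t → 0 < s.V i 1 t := fun i t ht => (hF.hV i).pos 1 t ht
  have hPi : ∀ t, 0 ≤ t → 0 < ∏ i, s.V i 1 t := fun t ht => Finset.prod_pos fun i _ => hVp i t ht
  -- times
  have hL0 : 0 ≤ s.L := by
    unfold Sys.L LK
    have : 0 ≤ Real.log s.K := Real.log_nonneg (by linarith [hpar.K1])
    exact div_nonneg this (by linarith [hpar.a1'])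
  have hlogD : s.L = Real.log s.D := by
    unfold Sys.L LK Sys.D DK
    rw [Real.log_rpow (by linarith [hpar.K1])]
    ring
  have hLD : 1 + s.L ≤ s.D := by
    rw [hlogD]
    have := Real.log_le_sub_one_of_pos hD0
    linarith
  have hN2 : (9:ℝ) ≤ (s.N:ℝ) ^ 2 := by nlinarith
  have he0 : s.e0 ≤ 1 / 9000 := by
    refine hpar.e0le.trans ?_
    rw [div_le_div_iff₀ (by positivity) (by norm_num)]
    nlinarith [hpar.a0]
  have hep : s.ep ≤ 1 / 9000 := by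
    refine hpar.eple.trans ?_
    have q1 : s.e0 * (1 / (16 * (s.N : ℝ))) ^ (s.N) ≤ 1 := by
      have q2 : (1 / (16 * (s.N : ℝ))) ^ (s.N) ≤ 1 := by
        apply pow_le_one₀ (by positivity)
        rw [div_le_one (by positivity)]
        linarith
      have q3 : (0:ℝ) ≤ (1 / (16 * (s.N : ℝ))) ^ (s.N) := by positivity
      nlinarith [hpar.e0pos]
    rw [div_le_div_iff₀ (by positivity) (by norm_num)]
    nlinarith
  have htl : s.tM ≤ s.tl := by
    unfold Sys.tl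
    have : 0 ≤ (1 - 2 * s.ep) * s.L := mul_nonneg (by linarith) hL0
    linarith
  have htlp : s.tl ≤ s.tp := by
    unfold Sys.tl Sys.tp
    have := hpar.eppos
    nlinarith
  have htM := hF.tMpos
  -- monotonicity of the product
  have hmono : ∀ t, 0 ≤ t → t ≤ s.tl → ∏ i, s.V i 1 t ≤ s.D ^ s.N * ∏ i, s.V i 1 s.tl := by
    intro t ht0 ht
    have q1 : ∀ i, s.V i 1 t ≤ s.D * s.V i 1 s.tl := by
      intro i
      have q2 := f2 i t s.tl ht0 ht htlp
      have q3 : s.D⁻¹ ≤ s.D ^ (-(2 * s.e0)) := by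
        rw [← Real.rpow_neg_one]
        exact Real.rpow_le_rpow_of_exponent_le hD1 (by linarith)
      have q4 := (mul_le_mul_of_nonneg_right q3 (hVp i t ht0).le).trans q2
      rw [inv_mul_le_iff₀ hD0] at q4
      exact q4
    calc ∏ i, s.V i 1 t ≤ ∏ i, (s.D * s.V i 1 s.tl) :=
          Finset.prod_le_prod (fun i _ => (hVp i t ht0).le) fun i _ => q1 i
      _ = s.D ^ j * ∏ i, s.V i 1 s.tl := by
          rw [Finset.prod_mul_distrib]; simp
      _ ≤ s.D ^ s.N * ∏ i, s.V i 1 s.tl := by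
          apply mul_le_mul_of_nonneg_right _ (hPi _ (by linarith)).le
          exact pow_le_pow_right₀ hD1 hjN
  -- number of partial embeddings
  have hcard : ((PEs J G).card : ℝ) ≤ s.D ^ (2 * s.N) := by
    have q1 : ((PEs J G).card : ℝ) ≤ ((s.N : ℝ) + 1) ^ j := by exact_mod_cast card_PEs J G
    have q2 : (s.N : ℝ) + 1 ≤ s.D ^ 2 := by nlinarith
    calc ((PEs J G).card : ℝ) ≤ ((s.N : ℝ) + 1) ^ j := q1
      _ ≤ (s.D ^ 2) ^ j := by gcongr
      _ ≤ (s.D ^ 2) ^ s.N := pow_le_pow_right₀ (by nlinarith) hjN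
      _ = s.D ^ (2 * s.N) := by rw [← pow_mul]
  have hsq : ∀ t, 0 ≤ t → Real.sqrt (∏ v, s.Y (dg G v) t) ≤ 1 := by
    intro t ht
    rw [Real.sqrt_le_one]
    apply Finset.prod_le_one
    · intro v _; exact (hF.hY.pos _ t ht).le
    · intro v _; exact (hF.hY.le _ t ht).trans hF.z1.le
  have hY1 : ∀ t, 0 ≤ t → s.Y 1 t ≤ 1 := fun t ht => (hF.hY.le _ t ht).trans hF.z1.le
  -- pointwise bounds
  have hUb : ∀ t B C, 0 ≤ t → 0 ≤ B → (∀ ψ ∈ PEs J G, wt J G (aW s.Y t) (bW s.α s.Y t) s.Kv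
      (fun i => s.Z i t) (fun i m d r => s.Gf i m d r t) ψ ≤ B) → s.Eh t ≤ C →
      s.Ubar J G t ≤ s.D ^ (2 * s.N) * B + C := by
    intro t B C ht hB hw hE
    unfold Sys.Ubar
    have q1 := Finset.sum_le_card_nsmul (PEs J G) _ B hw
    rw [nsmul_eq_mul] at q1
    have q2 : ((PEs J G).card : ℝ) * B ≤ s.D ^ (2 * s.N) * B :=
      mul_le_mul_of_nonneg_right hcard hB
    have q3 : Real.sqrt (∏ v, s.Y (dg G v) t) * s.Eh t ≤ 1 * s.Eh t :=
      mul_le_mul_of_nonneg_right (hsq t ht) (hF.Enn t ht)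
    linarith
  set q : ℕ := 6 * s.N ^ 2 + 10 * s.N + 8 with hq
  have hUa : ∀ t, 0 ≤ t → t ≤ s.tM → s.Ubar J G t ≤
      s.D ^ q * (1 - s.Y 1 t) * ∏ i, s.V i 1 t := by
    intro t ht0 ht
    have q0 : 0 ≤ (1 - s.Y 1 t) * ∏ i, s.V i 1 t :=
      mul_nonneg (by linarith [hY1 t ht0]) (hPi t ht0).le
    have q1 := hUb t (s.D ^ (6 * s.N ^ 2) * (1 - s.Y 1 t) * ∏ i, s.V i 1 t)
      (s.D ^ (s.N + 5) * (1 - s.Y 1 t) * ∏ i, s.V i 1 t) ht0
      (by rw [mul_assoc]; exact mul_nonneg (by positivity) q0)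
      (fun ψ hψ => (f5 ψ hψ).2 t ht0 ht) (f3a t ht0 ht)
    have q2 : s.D ^ (2 * s.N) * s.D ^ (6 * s.N ^ 2) + s.D ^ (s.N + 5) ≤ s.D ^ q := by
      have r1 : s.D ^ (2 * s.N) * s.D ^ (6 * s.N ^ 2) ≤ s.D ^ (q - 1) := by
        rw [← pow_add]
        exact pow_le_pow_right₀ hD1 (by omega)
      have r2 : s.D ^ (s.N + 5) ≤ s.D ^ (q - 1) := pow_le_pow_right₀ hD1 (by omega)
      exact add_le_pow _ _ _ hD3 q (by omega) r1 r2
    calc s.Ubar J G t ≤ _ := q1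
      _ = (s.D ^ (2 * s.N) * s.D ^ (6 * s.N ^ 2) + s.D ^ (s.N + 5)) *
          ((1 - s.Y 1 t) * ∏ i, s.V i 1 t) := by ring
      _ ≤ s.D ^ q * ((1 - s.Y 1 t) * ∏ i, s.V i 1 t) := mul_le_mul_of_nonneg_right q2 q0
      _ = _ := by ring
  have hUc : ∀ t, s.tM ≤ t → t ≤ s.tl → s.Ubar J G t ≤ s.D ^ q * ∏ i, s.V i 1 t := by
    intro t ht0 ht
    have ht00 : 0 ≤ t := by linarith
    have q0 := (hPi t ht00).le
    have c1 : (2:ℝ) ^ ((j + 4) * j) * (6 * (s.N:ℝ)) ^ s.N ≤ s.D ^ (s.N ^ 2 + 8 * s.N) := by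
      have r1 : (2:ℝ) ^ ((j + 4) * j) ≤ s.D ^ ((s.N + 4) * s.N) :=
        calc (2:ℝ) ^ ((j + 4) * j) ≤ s.D ^ ((j + 4) * j) := by
              gcongr; linarith
          _ ≤ s.D ^ ((s.N + 4) * s.N) := by
              apply pow_le_pow_right₀ hD1
              gcongr
      have r2 : (6 * (s.N:ℝ)) ^ s.N ≤ (s.D ^ 4) ^ s.N := by
        gcongr
        have : (27:ℝ) ≤ s.D ^ 3 := by
          calc (27:ℝ) = 3 ^ 3 := by norm_num
            _ ≤ s.D ^ 3 := by gcongr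
        nlinarith
      calc (2:ℝ) ^ ((j + 4) * j) * (6 * (s.N:ℝ)) ^ s.N ≤
          s.D ^ ((s.N + 4) * s.N) * (s.D ^ 4) ^ s.N := by gcongr
        _ = s.D ^ (s.N ^ 2 + 8 * s.N) := by
            rw [← pow_mul, ← pow_add]; congr 1; ring
    have hw : ∀ ψ ∈ PEs J G, wt J G (aW s.Y t) (bW s.α s.Y t) s.Kv
      (fun i => s.Z i t) (fun i m d r => s.Gf i m d r t) ψ ≤
        s.D ^ (6 * s.N ^ 2 + 8 * s.N) * ∏ i, s.V i 1 t := by
      intro ψ hψ
      have w1 := (f5 ψ hψ).1 t ht0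
      have w2 := (f6 ψ hψ).1 t ht0 ht
      have w3 : (0:ℝ) ≤ (2:ℝ) ^ ((j + 4) * j) * (6 * (s.N:ℝ)) ^ s.N := by positivity
      calc _ ≤ _ := w1
        _ ≤ (2:ℝ) ^ ((j + 4) * j) * (6 * (s.N:ℝ)) ^ s.N *
            (s.D ^ (5 * s.N ^ 2) * ∏ i, s.V i 1 t) := mul_le_mul_of_nonneg_left (by
              exact_mod_cast w2) w3
        _ ≤ s.D ^ (s.N ^ 2 + 8 * s.N) * (s.D ^ (5 * s.N ^ 2) * ∏ i, s.V i 1 t) :=
            mul_le_mul_of_nonneg_right c1 (by positivity)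
        _ = _ := by
            rw [← mul_assoc, ← pow_add]; congr 2; ring
    have q1 := hUb t _ (s.D ^ (s.N + 6) * ∏ i, s.V i 1 t) ht00 (by positivity) hw
      (by exact_mod_cast f3b t ht0 ht)
    have q2 : s.D ^ (2 * s.N) * s.D ^ (6 * s.N ^ 2 + 8 * s.N) + s.D ^ (s.N + 6) ≤ s.D ^ q := by
      have r1 : s.D ^ (2 * s.N) * s.D ^ (6 * s.N ^ 2 + 8 * s.N) ≤ s.D ^ (q - 1) := by
        rw [← pow_add]
        exact pow_le_pow_right₀ hD1 (by omega)
      have r2 : s.D ^ (s.N + 6) ≤ s.D ^ (q - 1) := pow_le_pow_right₀ hD1 (by omega)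
      exact add_le_pow _ _ _ hD3 q (by omega) r1 r2
    calc s.Ubar J G t ≤ _ := q1
      _ = (s.D ^ (2 * s.N) * s.D ^ (6 * s.N ^ 2 + 8 * s.N) + s.D ^ (s.N + 6)) *
          ∏ i, s.V i 1 t := by ring
      _ ≤ s.D ^ q * ∏ i, s.V i 1 t := mul_le_mul_of_nonneg_right q2 q0
  -- integrals
  obtain ⟨hcont, hnn⟩ := (h7 j s hF J hJ).1 s.N G (by have := hpar.N3; omega) hG
  have hII : ∀ a b, 0 ≤ a → 0 ≤ b → IntervalIntegrable (fun t => s.Ubar J G t)
      MeasureTheory.volume a b := by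
    intro a b ha hb
    apply ContinuousOn.intervalIntegrable
    apply hcont.mono
    intro x hx
    rw [Set.uIcc, Set.mem_Icc] at hx
    exact le_trans (le_min ha hb) hx.1
  set A : ℝ := s.D ^ q * (s.D ^ s.N * ∏ i, s.V i 1 s.tl) with hA
  have hA0 : 0 ≤ A := by
    have := (hPi s.tl (by linarith)).le
    positivity
  obtain ⟨-, -, hTM⟩ := (h10 s.α s.z s.Y hpar.a0 hpar.a1' hF.z2 hF.z1 hF.hY).2 s.tM htM.le hF.htM
  have i1 : ∫ t in (0:ℝ)..s.tM, s.Ubar J G t ≤ A := by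
    have b1 : ∀ t ∈ Set.Icc (0:ℝ) s.tM, s.Ubar J G t ≤ A * Real.exp (t - s.tM) := by
      intro t ht
      refine (hUa t ht.1 ht.2).trans ?_
      have r1 := (hTM t ht.1 ht.2).2.1
      have r2 := hmono t ht.1 (ht.2.trans htl)
      have r3 : 0 ≤ 1 - s.Y 1 t := by linarith [hY1 t ht.1]
      calc s.D ^ q * (1 - s.Y 1 t) * ∏ i, s.V i 1 t ≤
          s.D ^ q * Real.exp (t - s.tM) * (s.D ^ s.N * ∏ i, s.V i 1 s.tl) := by
            apply mul_le_mul _ r2 (hPi t ht.1).le (by positivity)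
            exact mul_le_mul_of_nonneg_left r1 (by positivity)
        _ = A * Real.exp (t - s.tM) := by rw [hA]; ring
    have b2 : ∫ t in (0:ℝ)..s.tM, A * Real.exp (t - s.tM) = A * (1 - Real.exp (-s.tM)) := by
      rw [intervalIntegral.integral_const_mul]
      congr 1
      have : ∀ t ∈ Set.uIcc 0 s.tM, HasDerivAt (fun t => Real.exp (t - s.tM))
          (Real.exp (t - s.tM)) t := by
        intro t _
        have := ((hasDerivAt_id t).sub_const s.tM).exp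
        simpa using this
      rw [intervalIntegral.integral_eq_sub_of_hasDerivAt this
        (by apply Continuous.intervalIntegrable; fun_prop)]
      simp
    have b3 := intervalIntegral.integral_mono_on htM.le (hII 0 s.tM le_rfl htM.le)
      (by apply Continuous.intervalIntegrable; fun_prop) b1
    rw [b2] at b3
    have b4 := Real.exp_pos (-s.tM)
    nlinarith
  have i2 : ∫ t in s.tM..s.tl, s.Ubar J G t ≤ A * s.L := by
    have b1 : ∀ t ∈ Set.Icc s.tM s.tl, s.Ubar J G t ≤ A := by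
      intro t ht
      refine (hUc t ht.1 ht.2).trans ?_
      exact mul_le_mul_of_nonneg_left (hmono t (by linarith [ht.1]) ht.2) (by positivity)
    have b3 := intervalIntegral.integral_mono_on htl (hII s.tM s.tl htM.le (by linarith))
      (by apply Continuous.intervalIntegrable; fun_prop) b1
    rw [intervalIntegral.integral_const, smul_eq_mul] at b3
    have b4 : s.tl - s.tM ≤ s.L := by
      unfold Sys.tl
      have := hpar.eppos
      nlinarith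
    nlinarith
  have i3 : ∫ t in (0:ℝ)..τ, s.Ubar J G t ≤ ∫ t in (0:ℝ)..s.tl, s.Ubar J G t := by
    rw [← intervalIntegral.integral_add_adjacent_intervals (hII 0 τ le_rfl hτ0)
      (hII τ s.tl hτ0 (by linarith))]
    have : 0 ≤ ∫ t in τ..s.tl, s.Ubar J G t :=
      intervalIntegral.integral_nonneg hτ fun t ht => hnn t (by linarith [ht.1])
    linarith
  have i4 : ∫ t in (0:ℝ)..s.tl, s.Ubar J G t ≤ A * s.D := by
    rw [← intervalIntegral.integral_add_adjacent_intervals (hII 0 s.tM le_rfl htM.le)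
      (hII s.tM s.tl htM.le (by linarith))]
    nlinarith
  have hDη : 1 ≤ η * s.D := by
    have hK1 : (1:ℝ) ≤ s.K := by linarith [hpar.K1]
    have : s.K ≤ s.D := by
      unfold Sys.D DK
      have : (1:ℝ) ≤ 1 / (1 - s.α) := by
        rw [le_div_iff₀ (by linarith [hpar.a1'])]
        linarith [hpar.a0]
      calc s.K = s.K ^ (1:ℝ) := (Real.rpow_one _).symm
        _ ≤ s.K ^ (1 / (1 - s.α)) := Real.rpow_le_rpow_of_exponent_le hK1 this
    have := hkη.trans this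
    rw [div_le_iff₀ hη] at this
    linarith
  have f8' : s.D * (A * s.D) ≤ ∫ t in s.tl..s.tp, s.PP J ds t := by
    refine le_trans (le_of_eq ?_) f8
    rw [hA, hq]
    have : s.D ^ (6 * s.N ^ 2 + 11 * s.N + 10) =
        s.D ^ (6 * s.N ^ 2 + 10 * s.N + 8) * s.D ^ s.N * s.D * s.D := by
      ring
    rw [this]; ring
  have hAD : 0 ≤ A * s.D := by positivity
  calc _ ≤ A * s.D := i3.trans i4
    _ ≤ η * (s.D * (A * s.D)) := by nlinarith
    _ ≤ _ := mul_le_mul_of_nonneg_left f8' hη.le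

end Pool.Agent.TH999.J2277
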