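import Pool.Agent.TH981.SD.Stm

set_option autoImplicit false

open Pool.Agent.TH981.SD
open Finset Set Filter
open scoped BigOperators Topology Classical

namespace Pool.Agent.TH999.J2293

/-! ### limits -/

/-- eventually bounded -/
def EB (f : ℝ → ℝ) : Prop := ∃ B, ∀ᶠ t in atTop, |f t| ≤ B

theorem EB.mul {f h : ℝ → ℝ} (hf : EB f) (hh : EB h) : EB (fun t => f t * h t) := by
  obtain ⟨B, hB⟩ := hf
  obtain ⟨C, hC⟩ := hh
  refine ⟨B * C, ?_⟩
  filter_upwards [hB, hC] with t h1 h2
  rw [abs_mul]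
  exact mul_le_mul h1 h2 (abs_nonneg _) ((abs_nonneg _).trans h1)

theorem EB.const (c : ℝ) : EB (fun _ => c) := ⟨|c|, Eventually.of_forall fun _ => le_rfl⟩

theorem EB.prod {ι : Type} (s : Finset ι) (f : ι → ℝ → ℝ) (h : ∀ i ∈ s, EB (f i)) :
    EB (fun t => ∏ i ∈ s, f i t) := by
  induction s using Finset.induction_on with
  | empty => simpa using EB.const 1
  | insert a s ha ih =>
    have h1 := (h a (Finset.mem_insert_self _ _)).mul
      (ih fun i hi => h i (Finset.mem_insert_of_mem hi))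
    simp only [Finset.prod_insert ha]
    exact h1

theorem EB.of_tendsto {f : ℝ → ℝ} (h : Tendsto f atTop (𝓝 0)) : EB f := by
  refine ⟨1, ?_⟩
  have := h.abs
  rw [abs_zero] at this
  filter_upwards [this.eventually (gt_mem_nhds (show (0:ℝ) < 1 by norm_num))] with t ht
  exact ht.le

theorem tendsto_mul {f h : ℝ → ℝ} (hf : EB f) (hh : Tendsto h atTop (𝓝 0)) :
    Tendsto (fun t => f t * h t) atTop (𝓝 0) := by
  obtain ⟨B, hB⟩ := hf
  have h1 : Tendsto (fun t => |B| * |h t|) atTop (𝓝 0) := by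
    have := (hh.abs.const_mul |B|)
    simpa using this
  refine squeeze_zero_norm' ?_ h1
  filter_upwards [hB] with t ht
  rw [Real.norm_eq_abs, abs_mul]
  exact mul_le_mul_of_nonneg_right (ht.trans (le_abs_self B)) (abs_nonneg _)

theorem prod_tendsto {ι : Type} (s : Finset ι) (f : ι → ℝ → ℝ) (i0 : ι) (hi0 : i0 ∈ s)
    (h0 : Tendsto (f i0) atTop (𝓝 0)) (hb : ∀ i ∈ s, EB (f i)) :
    Tendsto (fun t => ∏ i ∈ s, f i t) atTop (𝓝 0) := by
  have h1 := tendsto_mul (EB.prod (s.erase i0) f fun i hi => hb i (Finset.mem_of_mem_erase hi)) h0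
  refine h1.congr fun t => ?_
  exact Finset.prod_erase_mul s (fun i => f i t) hi0

/-! ### hval -/

theorem hval_nonneg {n : ℕ} (O : Finset (Fin n)) (a b : Fin n → ℝ) (g : ℕ → ℝ) (r : ℕ)
    (ha : ∀ x, 0 ≤ a x) (hb : ∀ x, 0 ≤ b x) (hg : ∀ r, 0 ≤ g r) : 0 ≤ hval O a b g r := by
  unfold hval
  refine Finset.sum_nonneg fun S _ => ?_
  exact mul_nonneg (mul_nonneg (Finset.prod_nonneg fun x _ => hb x)
    (Finset.prod_nonneg fun x _ => ha x)) (hg _)

theorem hval_mono {n : ℕ} (O : Finset (Fin n)) (a b : Fin n → ℝ) (g g' : ℕ → ℝ) (r : ℕ)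
    (ha : ∀ x, 0 ≤ a x) (hb : ∀ x, 0 ≤ b x) (hg : ∀ r, g r ≤ g' r) :
    hval O a b g r ≤ hval O a b g' r := by
  unfold hval
  refine Finset.sum_le_sum fun S _ => ?_
  exact mul_le_mul_of_nonneg_left (hg _) (mul_nonneg (Finset.prod_nonneg fun x _ => hb x)
    (Finset.prod_nonneg fun x _ => ha x))

theorem hval_cont {n : ℕ} (O : Finset (Fin n)) (a b : Fin n → ℝ → ℝ) (g : ℕ → ℝ → ℝ) (r : ℕ)
    (T : Set ℝ) (ha : ∀ x, ContinuousOn (a x) T) (hb : ∀ x, ContinuousOn (b x) T)
    (hg : ∀ r, ContinuousOn (g r) T) :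
    ContinuousOn (fun t => hval O (fun x => a x t) (fun x => b x t) (fun r => g r t) r) T := by
  unfold hval
  refine continuousOn_finsetSum _ fun S _ => ?_
  exact ((continuousOn_finsetProd _ fun x _ => hb x).mul
    (continuousOn_finsetProd _ fun x _ => ha x)).mul (hg _)

theorem hval_tendsto {n : ℕ} (O : Finset (Fin n)) (a b : Fin n → ℝ → ℝ) (g : ℕ → ℝ → ℝ) (r : ℕ)
    (ha : ∀ x, EB (a x)) (hb : ∀ x, EB (b x)) (hg : ∀ r, Tendsto (g r) atTop (𝓝 0)) :
    Tendsto (fun t => hval O (fun x => a x t) (fun x => b x t) (fun r => g r t) r)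
      atTop (𝓝 0) := by
  unfold hval
  have : Tendsto (fun t => ∑ S ∈ O.powerset, (∏ x ∈ S, b x t) * (∏ x ∈ O \ S, a x t) *
      g (r + S.card) t) atTop (𝓝 (∑ S ∈ O.powerset, 0)) := by
    refine tendsto_finsetSum _ fun S _ => ?_
    exact tendsto_mul ((EB.prod _ _ fun x _ => hb x).mul (EB.prod _ _ fun x _ => ha x)) (hg _)
  simpa using this

theorem miss_le {j n : ℕ} (J : SimpleGraph (Fin j)) (ψ : Fin j → Option (Fin n)) (i : Fin j) :
    miss J ψ i ≤ j := by
  unfold miss
  refine (Finset.card_le_univ _).trans ?_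
  simp

theorem gen (h1 : S_EVOL) (h2 : S_EXT) (h3 : S_STEP) (h4 : S_EPART) (h5 : S_AB) (h6 : S_TW)
    (h7 : S_YF) (h8 : S_ATT) : S_GEN := by
  intro j n α z J Kv Km g Y Gf Gf' Z Z' Eh Eh' mu kap x4 x3 a1 G hS hG hn
  obtain ⟨hAB, hAB0⟩ := h5 α z Y hS.α0 hS.α1 hS.z0 hS.z1 hS.hY
  obtain ⟨hdg, -, -, -⟩ := h6 α n G hS.α0 hS.α1 hn hG
  have hY0 := (h7 α z Y hS.α0 hS.α1 hS.z0 hS.z1 hS.hY).2.2.2.2.2.2
  -- the branch weights
  have hac : ∀ C : Multiset ℕ, ContinuousOn (fun t => aW Y t C) (Set.Ici 0) := fun C t ht =>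
    ((hAB C t ht).1).continuousWithinAt
  have hbc : ∀ C : Multiset ℕ, ContinuousOn (fun t => bW α Y t C) (Set.Ici 0) := fun C t ht =>
    ((hAB C t ht).2.1).continuousWithinAt
  have han : ∀ (C : Multiset ℕ) t, 0 ≤ t → 0 ≤ aW Y t C := fun C t ht => (hAB C t ht).2.2.1.le
  have hbn : ∀ (C : Multiset ℕ) t, 0 ≤ t → 0 ≤ bW α Y t C := fun C t ht => (hAB C t ht).2.2.2.1
  have hYc : ∀ d, ContinuousOn (Y d) (Set.Ici 0) := fun d t ht =>
    (hS.hY.deriv d t ht).continuousWithinAt
  have hZc : ∀ i, ContinuousOn (Z i) (Set.Ici 0) := fun i t ht =>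
    (hS.Zder i t ht).continuousWithinAt
  have hEc : ContinuousOn Eh (Set.Ici 0) := fun t ht => (hS.Eder t ht).continuousWithinAt
  -- factors
  have hfn : ∀ (ψ : Fin j → Option (Fin n)) t, 0 ≤ t → ∀ i,
      0 ≤ fac J G (aW Y t) (bW α Y t) Kv (fun i => Z i t) (fun i m d r => Gf i m d r t) ψ i := by
    intro ψ t ht i
    unfold fac
    split
    · exact hS.Znn i t ht
    · exact hval_nonneg _ _ _ _ _ (fun x => han _ t ht)
        (fun x => mul_nonneg (hS.Knn i) (hbn _ t ht)) (fun r => hS.Gnn _ _ _ _ t ht)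
  have hwf : ∀ (ψ : Fin j → Option (Fin n)) t, wt J G (aW Y t) (bW α Y t) Kv
      (fun i => Z i t) (fun i m d r => Gf i m d r t) ψ =
      ∏ i, fac J G (aW Y t) (bW α Y t) Kv (fun i => Z i t)
        (fun i m d r => Gf i m d r t) ψ i := fun ψ t => rfl
  have hwn : ∀ (ψ : Fin j → Option (Fin n)) t, 0 ≤ t → 0 ≤ wt J G (aW Y t) (bW α Y t) Kv
      (fun i => Z i t) (fun i m d r => Gf i m d r t) ψ := by
    intro ψ t ht
    rw [hwf]
    exact Finset.prod_nonneg fun i _ => hfn ψ t ht i
  have hwc : ∀ (ψ : Fin j → Option (Fin n)), ContinuousOn (fun t => wt J G (aW Y t) (bW α Y t) Kv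
      (fun i => Z i t) (fun i m d r => Gf i m d r t) ψ) (Set.Ici 0) := by
    intro ψ
    unfold wt
    refine continuousOn_finsetProd _ fun i _ => ?_
    rcases hψ : ψ i with _ | h
    · exact hZc i
    · exact hval_cont _ (fun x t => aW Y t (degs G (br G h x)))
        (fun x t => Kv i * bW α Y t (degs G (br G h x)))
        (fun r t => Gf i (miss J ψ i) (dg G h) r t) 0 _ (fun x => hac _)
        (fun x => (hbc _).const_mul _) (fun r => hS.Gcont _ _ _ _)
  have hsc : ContinuousOn (fun t => Real.sqrt (∏ v, Y (dg G v) t)) (Set.Ici 0) :=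
    Real.continuous_sqrt.comp_continuousOn (continuousOn_finsetProd _ fun v _ => hYc _)
  refine ⟨?_, ?_, ?_, ?_, ?_⟩
  · -- continuity
    unfold Ub
    exact (continuousOn_finsetSum _ fun ψ _ => hwc ψ).add (hsc.mul hEc)
  · -- nonnegativity
    intro t ht
    unfold Ub
    exact add_nonneg (Finset.sum_nonneg fun ψ _ => hwn ψ t ht)
      (mul_nonneg (Real.sqrt_nonneg _) (hS.Enn t ht))
  · -- derivative
    intro t ht hta
    obtain ⟨Ed, hEd, hEle⟩ := h4 j n α z J Kv Km g Y Gf Gf' Z Z' Eh Eh' mu kap x4 x3 a1 G hS hG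
      hn t ht
    have hder : ∀ ψ ∈ PEs J G, HasDerivWithinAt (fun t => wt J G (aW Y t) (bW α Y t) Kv
        (fun i => Z i t) (fun i m d r => Gf i m d r t) ψ)
        (∑ v, lam α (dg G v) * (wt J (attach G v) (aW Y t) (bW α Y t) Kv (fun i => Z i t)
            (fun i m d r => Gf i m d r t) (liftψ ψ) -
          wt J G (aW Y t) (bW α Y t) Kv (fun i => Z i t) (fun i m d r => Gf i m d r t) ψ) +
        ∑ i, dfac α J G (aW Y t) (bW α Y t) Kv (fun i => Z' i t) (fun i m d r => Gf i m d r t)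
            (fun i m d r => Gf' i m d r t) ψ i *
          ∏ i' ∈ Finset.univ.erase i, fac J G (aW Y t) (bW α Y t) Kv (fun i => Z i t)
            (fun i m d r => Gf i m d r t) ψ i') (Set.Ici 0) t := by
      intro ψ hψ
      have hPE : PE J G ψ := (Finset.mem_filter.1 hψ).2
      exact h1 α j n J G ψ (fun t => aW Y t) (fun t => bW α Y t) Kv Z (fun i => Z' i t) Gf
        (fun i m d r => Gf' i m d r t) (Set.Ici 0) t hS.hJ hG hn hPE
        (fun C => (hAB C t ht).1) (fun C => (hAB C t ht).2.1) (fun i => hS.Zder i t ht)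
        (fun i m d r => hS.Gder i m d r t ht hta)
    have hsum := HasDerivWithinAt.fun_sum hder
    refine ⟨_, hsum.add hEd, ?_⟩
    -- the sum over attachments
    have hext : ∀ v, Ub α J Kv Y Gf Z Eh (attach G v) t =
        (∑ ψ ∈ PEs J G, wt J (attach G v) (aW Y t) (bW α Y t) Kv (fun i => Z i t)
            (fun i m d r => Gf i m d r t) (liftψ ψ) +
          ∑ ψ ∈ PEs J G, ∑ l, (if ψ l = none ∧ ∃ i, J.Adj i l ∧ ψ i = some v then
            wt J (attach G v) (aW Y t) (bW α Y t) Kv (fun i => Z i t)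
              (fun i m d r => Gf i m d r t) (extψ ψ l) else 0) +
          ∑ w, wt J (attach G v) (aW Y t) (bW α Y t) Kv (fun i => Z i t)
            (fun i m d r => Gf i m d r t) (sing n w)) +
        Real.sqrt (∏ u, Y (dg (attach G v) u) t) * Eh t := by
      intro v
      unfold Ub
      rw [(h2 j n J G v (fun ψ => wt J (attach G v) (aW Y t) (bW α Y t) Kv (fun i => Z i t)
            (fun i m d r => Gf i m d r t) ψ) hS.hJ hG).1]
    have hstep := Finset.sum_le_sum fun ψ (hψ : ψ ∈ PEs J G) =>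
      h3 j n α z J Kv Km g Y Gf Gf' Z Z' Eh Eh' mu kap x4 x3 a1 G hS hG hn ψ hψ t ht hta
    have heq : ∑ v, lam α (dg G v) * (Ub α J Kv Y Gf Z Eh (attach G v) t -
          Ub α J Kv Y Gf Z Eh G t) =
        ∑ ψ ∈ PEs J G, (∑ v, lam α (dg G v) * (wt J (attach G v) (aW Y t) (bW α Y t) Kv
            (fun i => Z i t) (fun i m d r => Gf i m d r t) (liftψ ψ) -
          wt J G (aW Y t) (bW α Y t) Kv (fun i => Z i t) (fun i m d r => Gf i m d r t) ψ)) +
        ∑ ψ ∈ PEs J G, (∑ v, lam α (dg G v) * (∑ l, (if ψ l = none ∧ ∃ i, J.Adj i l ∧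
            ψ i = some v then wt J (attach G v) (aW Y t) (bW α Y t) Kv (fun i => Z i t)
              (fun i m d r => Gf i m d r t) (extψ ψ l) else 0))) +
        (∑ v, lam α (dg G v) * (Real.sqrt (∏ u, Y (dg (attach G v) u) t) * Eh t -
            Real.sqrt (∏ u, Y (dg G u) t) * Eh t) +
          ∑ v, lam α (dg G v) * ∑ w, wt J (attach G v) (aW Y t) (bW α Y t) Kv (fun i => Z i t)
            (fun i m d r => Gf i m d r t) (sing n w)) := by
      rw [Finset.sum_comm (s := PEs J G), Finset.sum_comm (s := PEs J G)]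
      rw [← Finset.sum_add_distrib, ← Finset.sum_add_distrib, ← Finset.sum_add_distrib]
      refine Finset.sum_congr rfl fun v _ => ?_
      rw [hext v]
      unfold Ub
      rw [← Finset.mul_sum, ← Finset.mul_sum, Finset.sum_sub_distrib]
      ring
    rw [heq, Finset.sum_add_distrib (s := PEs J G)]
    linarith
  · -- initial value
    unfold fz Ub
    have hsub : TEs J G ⊆ PEs J G := by
      intro ψ hψ
      rw [TEs, Finset.mem_filter] at hψ
      rw [PEs, Finset.mem_filter]
      exact ⟨hψ.1, hψ.2.1⟩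
    have hE0 : 0 ≤ Real.sqrt (∏ v, Y (dg G v) 0) * Eh 0 :=
      mul_nonneg (Real.sqrt_nonneg _) (hS.Enn 0 le_rfl)
    have hle : ∀ ψ ∈ TEs J G, wt J G (fun C => z ^ (Multiset.card C))
        (fun C => z ^ (Multiset.card C) * ((C.map (fun d => lam α d * (1 - z))).sum)) Kv
        (fun _ => 0) (fun _ _ _ r => g r) ψ ≤ wt J G (aW Y 0) (bW α Y 0) Kv
          (fun i => Z i 0) (fun i m d r => Gf i m d r 0) ψ := by
      intro ψ hψ
      rw [TEs, Finset.mem_filter] at hψ
      have htot := hψ.2.2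
      have e1 : (fun C : Multiset ℕ => z ^ (Multiset.card C)) = aW Y 0 := by
        funext C; exact (hAB0 C).1.symm
      have e2 : (fun C : Multiset ℕ => z ^ (Multiset.card C) *
          ((C.map (fun d => lam α d * (1 - z))).sum)) = bW α Y 0 := by
        funext C; exact (hAB0 C).2.symm
      rw [e1, e2]
      unfold wt
      refine Finset.prod_le_prod (fun i _ => ?_) fun i _ => ?_
      · rcases hi : ψ i with _ | h
        · exact le_rfl
        · exact hval_nonneg _ _ _ _ _ (fun x => han _ 0 le_rfl)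
            (fun x => mul_nonneg (hS.Knn i) (hbn _ 0 le_rfl)) hS.gnn
      · rcases hi : ψ i with _ | h
        · exact absurd hi (htot i)
        · have hm : miss J ψ i = 0 := by
            unfold miss
            rw [Finset.card_eq_zero, Finset.filter_eq_empty_iff]
            intro l _ hl
            exact htot l hl.2
          refine hval_mono _ _ _ _ _ _ (fun x => han _ 0 le_rfl)
            (fun x => mul_nonneg (hS.Knn i) (hbn _ 0 le_rfl)) fun r => ?_
          rw [hm]
          exact hS.Ginit i (dg G h) r (hdg h)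
    have q1 := Finset.sum_le_sum hle
    have q2 := Finset.sum_le_sum_of_subset_of_nonneg hsub (f := fun ψ => wt J G (aW Y 0)
      (bW α Y 0) Kv (fun i => Z i 0) (fun i m d r => Gf i m d r 0) ψ)
      (fun ψ _ _ => hwn ψ 0 le_rfl)
    linarith
  · -- limit
    have hYb : ∀ d, EB (Y d) := fun d => ⟨z, by
      filter_upwards [eventually_ge_atTop 0] with t ht
      rw [abs_of_pos (hS.hY.pos d t ht)]
      exact hS.hY.le d t ht⟩
    have haE : ∀ C : Multiset ℕ, EB (fun t => aW Y t C) := by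
      intro C
      unfold aW
      induction C using Multiset.induction_on with
      | empty => simpa using EB.const 1
      | cons a C ih =>
        simp only [Multiset.map_cons, Multiset.prod_cons]
        exact (hYb a).mul ih
    have hbE : ∀ C : Multiset ℕ, EB (fun t => bW α Y t C) := by
      intro C
      obtain ⟨B, hB⟩ := (haE C).mul (EB.const (C.map (lam α)).sum)
      refine ⟨B, ?_⟩
      filter_upwards [hB, eventually_ge_atTop 0] with t h1 h0
      rw [abs_of_nonneg (hbn C t h0)]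
      exact ((hAB C t h0).2.2.2.2.1).trans ((le_abs_self _).trans h1)
    have hhub : ∀ (ψ : Fin j → Option (Fin n)) i h, ψ i = some h → Tendsto (fun t =>
        hubf J G (aW Y t) (bW α Y t) Kv (fun i m d r => Gf i m d r t) ψ i h) atTop (𝓝 0) := by
      intro ψ i h _
      exact hval_tendsto _ (fun x t => aW Y t (degs G (br G h x)))
        (fun x t => Kv i * bW α Y t (degs G (br G h x)))
        (fun r t => Gf i (miss J ψ i) (dg G h) r t) 0 (fun x => haE _)
        (fun x => (EB.const _).mul (hbE _)) (fun r => hS.Glim _ _ _ _ (miss_le J ψ i) (hdg h))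
    have hZE : ∀ i, EB (Z i) := by
      intro i
      obtain ⟨B, hB⟩ := hS.Zbd i
      refine ⟨B, ?_⟩
      filter_upwards [eventually_ge_atTop 0] with t ht
      rw [abs_of_nonneg (hS.Znn i t ht)]
      exact hB t ht
    have hw0 : ∀ ψ ∈ PEs J G, Tendsto (fun t => wt J G (aW Y t) (bW α Y t) Kv
        (fun i => Z i t) (fun i m d r => Gf i m d r t) ψ) atTop (𝓝 0) := by
      intro ψ hψ
      have hPE : PE J G ψ := (Finset.mem_filter.1 hψ).2
      obtain ⟨⟨i0, hi0⟩⟩ := hPE.conn.nonempty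
      have hi0' : ψ i0 ≠ none := hi0
      obtain ⟨v0, hv0⟩ := Option.ne_none_iff_exists'.1 hi0'
      unfold wt
      refine prod_tendsto Finset.univ (fun i t => (match ψ i with
        | none => Z i t
        | some h => hubf J G (aW Y t) (bW α Y t) Kv (fun i m d r => Gf i m d r t) ψ i h)) i0
        (Finset.mem_univ _) ?_ ?_
      · simp only [hv0]
        exact hhub ψ i0 v0 hv0
      · intro i _
        rcases hi : ψ i with _ | h
        · exact hZE i
        · exact EB.of_tendsto (hhub ψ i h hi)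
    have hs0 : Tendsto (fun t => Real.sqrt (∏ v, Y (dg G v) t) * Eh t) atTop (𝓝 0) := by
      have q1 : Tendsto (fun t => ∏ v, Y (dg G v) t) atTop (𝓝 0) :=
        prod_tendsto Finset.univ (fun v t => Y (dg G v) t) ⟨0, by omega⟩ (Finset.mem_univ _)
          (hY0 _ (hdg _)) (fun v _ => hYb _)
      have q2 : Tendsto (fun t => Real.sqrt (∏ v, Y (dg G v) t)) atTop (𝓝 0) := by
        have := (Real.continuous_sqrt.tendsto 0).comp q1
        rw [Real.sqrt_zero] at this
        exact this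
      have q3 : EB Eh := by
        obtain ⟨B, hB⟩ := hS.Ebd
        refine ⟨B, ?_⟩
        filter_upwards [eventually_ge_atTop 0] with t ht
        rw [abs_of_nonneg (hS.Enn t ht)]
        exact hB t ht
      refine (tendsto_mul q3 q2).congr fun t => ?_
      rw [mul_comm]
    have := (tendsto_finsetSum (PEs J G) hw0).add hs0
    rw [Finset.sum_const_zero, add_zero] at this
    exact this

end Pool.Agent.TH999.J2293
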