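import Pool.Agent.TH451.MB.Stmt

/-! Job 2000 (MB-LEAFCLOSE). -/

namespace Pool.Agent.TH999.MB

open Pool.Agent.TH451.MB Finset

theorem leaf_close : StLeafClose := by
  classical
  intro V τ _ _ _ _ G T hcard F hleaf φ hinj hadj hall
  choose par hparF hpar using hleaf
  -- the allowed sets
  let al : {u : τ // u ∉ F} → Finset V := fun u =>
    nb G (φ (par u.1 u.2)) (univ \ F.image φ)
  have hallc : ∀ S : Finset {u : τ // u ∉ F}, S.card ≤ (S.biUnion al).card := by
    intro S
    set X := S.image (fun u => par u.1 u.2) with hX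
    have hXF : X ⊆ F := by
      intro x hx
      obtain ⟨u, _, rfl⟩ := mem_image.1 hx
      exact hparF u.1 u.2
    have h1 : S.card ≤ ∑ t ∈ X, (nb T t (univ \ F)).card := by
      rw [card_eq_sum_card_fiberwise (f := fun u => par u.1 u.2) (t := X)
        (fun u hu => mem_image_of_mem _ hu)]
      refine sum_le_sum fun t _ => ?_
      refine card_le_card_of_injOn (fun u => u.1) ?_ ?_
      · intro u hu
        simp only [coe_filter, Set.mem_ofPred_eq] at hu
        rw [mem_coe, mem_nb]
        refine ⟨by simp [u.2], ?_⟩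
        have := (hpar u.1 u.2 t).2 hu.2.symm
        exact this.symm
      · intro u _ v _ h
        exact Subtype.ext h
    refine h1.trans ((hall X hXF).trans ?_)
    apply card_le_card
    intro w hw
    rw [mem_nbs] at hw
    obtain ⟨hw1, x, hx, hxw⟩ := hw
    obtain ⟨t, ht, rfl⟩ := mem_image.1 hx
    obtain ⟨u, hu, rfl⟩ := mem_image.1 ht
    rw [mem_biUnion]
    exact ⟨u, hu, mem_nb.2 ⟨hw1, hxw⟩⟩
  obtain ⟨g, hg, hgt⟩ := (all_card_le_biUnion_card_iff_exists_injective al).1 hallc
  have hgW : ∀ u, g u ∉ F.image φ := by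
    intro u
    have := (mem_nb.1 (hgt u)).1
    rw [mem_sdiff] at this
    exact this.2
  let ψ : τ → V := fun t => if h : t ∈ F then φ t else g ⟨t, h⟩
  have hψF : ∀ t, t ∈ F → ψ t = φ t := fun t h => dif_pos h
  have hψL : ∀ t (h : t ∉ F), ψ t = g ⟨t, h⟩ := fun t h => dif_neg h
  have hψ : Function.Injective ψ := by
    intro a b hab
    by_cases ha : a ∈ F <;> by_cases hb : b ∈ F
    · rw [hψF a ha, hψF b hb] at hab
      exact hinj ha hb hab
    · rw [hψF a ha, hψL b hb] at hab
      exact absurd (hab ▸ mem_image_of_mem φ ha) (hgW ⟨b, hb⟩)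
    · rw [hψL a ha, hψF b hb] at hab
      exact absurd (hab.symm ▸ mem_image_of_mem φ hb) (hgW ⟨a, ha⟩)
    · rw [hψL a ha, hψL b hb] at hab
      exact congrArg Subtype.val (hg hab)
  have hbij : Function.Bijective ψ :=
    (Fintype.bijective_iff_injective_and_card ψ).2 ⟨hψ, hcard.symm⟩
  have key : ∀ a b, a ∉ F → T.Adj a b → G.Adj (ψ a) (ψ b) := by
    intro a b ha hab
    have hb := (hpar a ha b).1 hab
    have hbF : b ∈ F := hb ▸ hparF a ha
    rw [hψL a ha, hψF b hbF]
    have := (mem_nb.1 (hgt ⟨a, ha⟩)).2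
    rw [hb]
    exact this.symm
  refine ⟨Equiv.ofBijective ψ hbij, fun a b hab => ?_⟩
  change G.Adj (ψ a) (ψ b)
  by_cases ha : a ∈ F
  · by_cases hb : b ∈ F
    · rw [hψF a ha, hψF b hb]
      exact hadj a ha b hb hab
    · exact (key b a hb hab.symm).symm
  · exact key a b ha hab

end Pool.Agent.TH999.MB
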